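import Pool.Agent.C4f.Avg

/-! # Part (A): polynomials of bounded degree over prime fields -/

namespace Pool.Agent.C4f

open Finset

/-- row dirichlet. The `p` vectors `(floor (Q * (l * c i).val / p))_i`, `l : ZMod p`, take at most `Q ^ card ι < p` values; for
`l ≠ l'` with the same vector take `l - l'` and `r = (l * c i).val - (l' * c i).val`. -/
theorem dirichlet (p : ℕ) [Fact p.Prime] {ι : Type} [Fintype ι] (c : ι → ZMod p) (Q : ℕ) (hQ : 1 ≤ Q)
    (h : Q ^ Fintype.card ι < p) :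
    ∃ l : ZMod p, l ≠ 0 ∧ ∀ i, ∃ r : ℤ, (r : ZMod p) = l * c i ∧ |r| * Q ≤ p := by
  classical
  have hp : 0 < p := (Fact.out : p.Prime).pos
  have hlt : ∀ (l : ZMod p) (i : ι), Q * (l * c i).val / p < Q := by
    intro l i
    apply Nat.div_lt_of_lt_mul
    have h1 := ZMod.val_lt (l * c i)
    calc Q * (l * c i).val < Q * p := Nat.mul_lt_mul_of_pos_left h1 (by omega)
      _ = p * Q := Nat.mul_comm _ _
  let f : ZMod p → (ι → Fin Q) := fun l i => ⟨Q * (l * c i).val / p, hlt l i⟩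
  have hc : Fintype.card (ι → Fin Q) < Fintype.card (ZMod p) := by
    rw [Fintype.card_fun, Fintype.card_fin, ZMod.card]
    exact h
  obtain ⟨l, l', hne, hll⟩ := Fintype.exists_ne_map_eq_of_card_lt f hc
  refine ⟨l - l', sub_ne_zero.mpr hne, fun i => ?_⟩
  refine ⟨((l * c i).val : ℤ) - ((l' * c i).val : ℤ), ?_, ?_⟩
  · push_cast
    rw [ZMod.natCast_zmod_val, ZMod.natCast_zmod_val]
    ring
  · have h2 : Q * (l * c i).val / p = Q * (l' * c i).val / p := by
      have := congrFun hll i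
      exact congrArg Fin.val this
    have a1 := Nat.div_add_mod (Q * (l * c i).val) p
    have a2 := Nat.div_add_mod (Q * (l' * c i).val) p
    have b1 := Nat.mod_lt (Q * (l * c i).val) hp
    have b2 := Nat.mod_lt (Q * (l' * c i).val) hp
    rw [h2] at a1
    set k := p * (Q * (l' * c i).val / p) with hk
    set s := Q * (l * c i).val % p with hs
    set s' := Q * (l' * c i).val % p with hs'
    have e1 : (Q : ℤ) * ((l * c i).val : ℤ) = k + s := by exact_mod_cast a1.symm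
    have e2 : (Q : ℤ) * ((l' * c i).val : ℤ) = k + s' := by exact_mod_cast a2.symm
    have e3 : |((l * c i).val : ℤ) - ((l' * c i).val : ℤ)| * Q =
        |(Q : ℤ) * ((l * c i).val : ℤ) - (Q : ℤ) * ((l' * c i).val : ℤ)| := by
      rw [← mul_sub, abs_mul, mul_comm, Nat.abs_cast]
    rw [e3, e1, e2, abs_le]
    constructor
    · omega
    · omega

private theorem expand_bin (p k n : ℕ) (hn : n ≤ k) (t v : ZMod p) :
    (t + v) ^ n = ∑ j : Fin (k + 1), ((n.choose (j : ℕ) : ℕ) : ZMod p) * t ^ (n - (j : ℕ)) * v ^ (j : ℕ) := by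
  rw [add_comm t v, add_pow]
  rw [← Finset.sum_range (fun j => ((n.choose j : ℕ) : ZMod p) * t ^ (n - j) * v ^ j)]
  rw [← Finset.sum_subset (s₁ := range (n + 1)) (s₂ := range (k + 1))
    (f := fun j => ((n.choose j : ℕ) : ZMod p) * t ^ (n - j) * v ^ j)]
  · refine Finset.sum_congr rfl fun j _ => ?_
    ring
  · intro j hj
    rw [Finset.mem_range] at hj ⊢
    omega
  · intro j _ hj
    rw [Finset.mem_range, not_lt] at hj
    rw [Nat.choose_eq_zero_of_lt (by omega), Nat.cast_zero, zero_mul, zero_mul]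

/-- row expand. The polynomial `f(s + X, s + Y)` has total degree `≤ k`, so every exponent is `≤ k`. -/
theorem expand (p : ℕ) [Fact p.Prime] (d k : ℕ) (f : MvPolynomial (Fin d ⊕ Fin d) (ZMod p)) (hf : f.totalDegree ≤ k)
    (s : Fin d → ZMod p) :
    ∃ c : (Fin d ⊕ Fin d → Fin (k + 1)) → ZMod p, ∀ x y : Fin d → ℕ,
      MvPolynomial.eval (Sum.elim (fun i => s i + (x i : ZMod p)) (fun i => s i + (y i : ZMod p))) f =
        ∑ μ : Fin d ⊕ Fin d → Fin (k + 1), c μ * ((∏ i, Sum.elim x y i ^ (μ i : ℕ) : ℕ) : ZMod p) := by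
  classical
  refine ⟨fun μ => ∑ n ∈ f.support, f.coeff n *
    ∏ i, (((n i).choose (μ i : ℕ) : ℕ) : ZMod p) * (Sum.elim s s i) ^ (n i - (μ i : ℕ)), ?_⟩
  intro x y
  have hv : (Sum.elim (fun i => s i + (x i : ZMod p)) (fun i => s i + (y i : ZMod p)) :
      Fin d ⊕ Fin d → ZMod p) = fun i => Sum.elim s s i + ((Sum.elim x y i : ℕ) : ZMod p) := by
    funext i
    rcases i with i | i <;> rfl
  rw [hv, MvPolynomial.eval_eq']
  have h1 : ∀ n ∈ f.support, ∀ i, n i ≤ k := fun n hn i =>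
    ((MvPolynomial.monomial_le_degreeOf i hn).trans (MvPolynomial.degreeOf_le_totalDegree f i)).trans hf
  have h2 : ∀ n ∈ f.support, f.coeff n * ∏ i, (Sum.elim s s i + ((Sum.elim x y i : ℕ) : ZMod p)) ^ n i =
      ∑ μ : Fin d ⊕ Fin d → Fin (k + 1), f.coeff n *
        (∏ i, (((n i).choose (μ i : ℕ) : ℕ) : ZMod p) * (Sum.elim s s i) ^ (n i - (μ i : ℕ))) *
        ((∏ i, Sum.elim x y i ^ (μ i : ℕ) : ℕ) : ZMod p) := by
    intro n hn
    rw [Finset.prod_congr rfl (fun i _ => expand_bin p k (n i) (h1 n hn i) (Sum.elim s s i)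
      ((Sum.elim x y i : ℕ) : ZMod p))]
    rw [Finset.prod_univ_sum, Fintype.piFinset_univ, Finset.mul_sum]
    refine Finset.sum_congr rfl fun μ _ => ?_
    rw [mul_assoc, Nat.cast_prod, ← Finset.prod_mul_distrib]
    refine congrArg (fun z => f.coeff n * z) (Finset.prod_congr rfl fun i _ => ?_)
    rw [Nat.cast_pow]
  rw [Finset.sum_congr rfl h2, Finset.sum_comm]
  refine Finset.sum_congr rfl fun μ _ => ?_
  rw [Finset.sum_mul]

/-- row small_box (uses dirichlet, expand). `K = (k+1)^(2d)`. Apply `dirichlet` to `c`; `r = j ∑_{μ ≠ 0} r_μ (monomial)`, the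
monomials are `≤ R ^ (2 d k)` (`R ≥ 1`; if `R = 0` those with `μ ≠ 0` vanish); the term `μ = 0` is `f(s,s)`. -/
theorem small_box (p : ℕ) [Fact p.Prime] (d k : ℕ) (f : MvPolynomial (Fin d ⊕ Fin d) (ZMod p)) (hf : f.totalDegree ≤ k)
    (s : Fin d → ZMod p) (Q J R : ℕ) (hQ : Q ^ ((k + 1) ^ (2 * d)) < p)
    (hR : 16 * J * (k + 1) ^ (2 * d) * R ^ (2 * d * k) ≤ Q) (hQ1 : 1 ≤ Q) :
    ∃ l : ZMod p, l ≠ 0 ∧ ∀ j : ℕ, j ≤ J → ∀ x y : Fin d → ℕ, (∀ i, x i ≤ R) → (∀ i, y i ≤ R) →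
      ∃ r : ℤ, (r : ZMod p) = j * l * (MvPolynomial.eval (Sum.elim (fun i => s i + (x i : ZMod p))
        (fun i => s i + (y i : ZMod p))) f - MvPolynomial.eval (Sum.elim s s) f) ∧ 16 * |r| ≤ p := by
  obtain ⟨c, hc⟩ := expand p d k f hf s
  have hcard : Fintype.card (Fin d ⊕ Fin d → Fin (k + 1)) = (k + 1) ^ (2 * d) := by
    simp [two_mul]
  obtain ⟨l, hl, hr⟩ := dirichlet p c Q hQ1 (by rw [hcard]; exact hQ)
  choose ρ hρ1 hρ2 using hr
  refine ⟨l, hl, ?_⟩
  intro j hj x y hx hy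
  let mon : (Fin d → ℕ) → (Fin d → ℕ) → (Fin d ⊕ Fin d → Fin (k + 1)) → ℕ :=
    fun x y μ => ∏ i, Sum.elim x y i ^ (μ i : ℕ)
  have h0 : MvPolynomial.eval (Sum.elim s s) f = ∑ μ, c μ * ((mon 0 0 μ : ℕ) : ZMod p) := by
    have h1 := hc 0 0
    simp only [Pi.zero_apply, Nat.cast_zero, add_zero] at h1
    exact h1
  have h1 : MvPolynomial.eval (Sum.elim (fun i => s i + (x i : ZMod p)) (fun i => s i + (y i : ZMod p))) f =
      ∑ μ, c μ * ((mon x y μ : ℕ) : ZMod p) := hc x y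
  refine ⟨∑ μ, (j : ℤ) * ρ μ * ((mon x y μ : ℤ) - (mon 0 0 μ : ℤ)), ?_, ?_⟩
  · rw [h0, h1, ← Finset.sum_sub_distrib, Finset.mul_sum]
    push_cast
    refine Finset.sum_congr rfl fun μ _ => ?_
    rw [hρ1]
    ring
  · have hb : ∀ μ, |(mon x y μ : ℤ) - (mon 0 0 μ : ℤ)| ≤ (R : ℤ) ^ (2 * d * k) := by
      intro μ
      by_cases hμ : ∀ i, (μ i : ℕ) = 0
      · have h2 : ∀ x y, mon x y μ = 1 := by
          intro x y
          exact Finset.prod_eq_one fun i _ => by rw [hμ i, pow_zero]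
        rw [h2, h2]
        simp
      · push Not at hμ
        obtain ⟨i₀, hi₀⟩ := hμ
        have h3 : mon 0 0 μ = 0 := by
          refine Finset.prod_eq_zero (Finset.mem_univ i₀) ?_
          have h4 : Sum.elim (0 : Fin d → ℕ) 0 i₀ = 0 := by
            rcases i₀ with i | i <;> rfl
          rw [h4, zero_pow hi₀]
        have h5 : ∀ i, Sum.elim x y i ≤ R := by
          intro i
          rcases i with i | i
          · exact hx i
          · exact hy i
        have h6 : mon x y μ ≤ R ^ (2 * d * k) := by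
          rcases Nat.eq_zero_or_pos R with hR0 | hR0
          · have h7 : mon x y μ = 0 := by
              refine Finset.prod_eq_zero (Finset.mem_univ i₀) ?_
              have h8 : Sum.elim x y i₀ = 0 := by
                have := h5 i₀
                omega
              rw [h8, zero_pow hi₀]
            rw [h7]
            exact Nat.zero_le _
          · calc mon x y μ ≤ ∏ _i : Fin d ⊕ Fin d, R ^ k := by
                  refine Finset.prod_le_prod' fun i _ => ?_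
                  calc Sum.elim x y i ^ (μ i : ℕ) ≤ R ^ (μ i : ℕ) := Nat.pow_le_pow_left (h5 i) _
                    _ ≤ R ^ k := Nat.pow_le_pow_right hR0 (by have := (μ i).2; omega)
              _ = R ^ (2 * d * k) := by
                  rw [Finset.prod_const, Finset.card_univ, ← pow_mul]
                  congr 1
                  simp
                  ring
        rw [h3]
        have h9 : (mon x y μ : ℤ) ≤ (R : ℤ) ^ (2 * d * k) := by exact_mod_cast h6
        rw [Nat.cast_zero, sub_zero, abs_of_nonneg (by positivity)]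
        exact h9
    have hsum : |∑ μ, (j : ℤ) * ρ μ * ((mon x y μ : ℤ) - (mon 0 0 μ : ℤ))| ≤
        ∑ μ : Fin d ⊕ Fin d → Fin (k + 1), (J : ℤ) * |ρ μ| * (R : ℤ) ^ (2 * d * k) := by
      refine (Finset.abs_sum_le_sum_abs _ _).trans (Finset.sum_le_sum fun μ _ => ?_)
      rw [abs_mul, abs_mul, Nat.abs_cast]
      have h10 : (j : ℤ) * |ρ μ| ≤ (J : ℤ) * |ρ μ| :=
        mul_le_mul_of_nonneg_right (by exact_mod_cast hj) (abs_nonneg _)
      exact mul_le_mul h10 (hb μ) (abs_nonneg _) (by positivity)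
    have hQ0 : (0 : ℤ) < Q := by exact_mod_cast hQ1
    have hfin : (∑ μ : Fin d ⊕ Fin d → Fin (k + 1), (J : ℤ) * |ρ μ| * (R : ℤ) ^ (2 * d * k)) * Q ≤
        (J : ℤ) * ((k + 1) ^ (2 * d) : ℕ) * (R : ℤ) ^ (2 * d * k) * p := by
      rw [Finset.sum_mul]
      calc ∑ μ : Fin d ⊕ Fin d → Fin (k + 1), (J : ℤ) * |ρ μ| * (R : ℤ) ^ (2 * d * k) * Q
          ≤ ∑ _μ : Fin d ⊕ Fin d → Fin (k + 1), (J : ℤ) * (R : ℤ) ^ (2 * d * k) * p := by
            refine Finset.sum_le_sum fun μ _ => ?_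
            have h11 : (J : ℤ) * |ρ μ| * (R : ℤ) ^ (2 * d * k) * Q =
                (J : ℤ) * (R : ℤ) ^ (2 * d * k) * (|ρ μ| * Q) := by ring
            rw [h11]
            exact mul_le_mul_of_nonneg_left (hρ2 μ) (by positivity)
        _ = (J : ℤ) * ((k + 1) ^ (2 * d) : ℕ) * (R : ℤ) ^ (2 * d * k) * p := by
            rw [Finset.sum_const, Finset.card_univ, hcard, nsmul_eq_mul]
            ring
    have hR' : 16 * (J : ℤ) * ((k + 1) ^ (2 * d) : ℕ) * (R : ℤ) ^ (2 * d * k) ≤ Q := by exact_mod_cast hR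
    set T := |∑ μ, (j : ℤ) * ρ μ * ((mon x y μ : ℤ) - (mon 0 0 μ : ℤ))| with hT
    have h12 : T * Q ≤ (J : ℤ) * ((k + 1) ^ (2 * d) : ℕ) * (R : ℤ) ^ (2 * d * k) * p :=
      (mul_le_mul_of_nonneg_right hsum hQ0.le).trans hfin
    have h13 : (16 * T) * Q ≤ (p : ℤ) * Q := by
      have hp0 : (0 : ℤ) ≤ p := by positivity
      nlinarith [mul_le_mul_of_nonneg_right hR' hp0]
    exact le_of_mul_le_mul_right h13 hQ0

open Classical in
/-- row bad_count. `l ≠ 0`, `p` odd: `z ↦ l (2 z - c)` is a bijection of `ZMod p`; at most `2 M + 1` values of `valMinAbs` have absolute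
value `≤ M`; for each `(x, z)` at most `p ^ e` vertices (injectivity). -/
theorem bad_count (p : ℕ) [Fact p.Prime] (hp2 : p ≠ 2) (d e : ℕ) {V : Type} [Fintype V] (x : V → Fin d → ZMod p)
    (y : V → Fin e → ZMod p) (z : V → ZMod p) (hinj : Function.Injective fun v => (x v, y v, z v))
    (A : Finset (Fin d → ZMod p)) (l c : ZMod p) (hl : l ≠ 0) (M : ℕ) :
    (univ.filter fun v : V => x v ∈ A ∧ (l * (2 * z v - c)).valMinAbs.natAbs ≤ M).card ≤
      A.card * p ^ e * (2 * M + 1) := by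
  have h2 : (2 : ZMod p) ≠ 0 := by
    intro h
    have h3 : ((2 : ℕ) : ZMod p) = 0 := by exact_mod_cast h
    rw [ZMod.natCast_eq_zero_iff] at h3
    have hp := (Fact.out : p.Prime)
    have h4 := Nat.le_of_dvd (by norm_num) h3
    have h5 := hp.two_le
    omega
  have hcard : (A ×ˢ ((univ : Finset (Fin e → ZMod p)) ×ˢ (Finset.Icc (-(M : ℤ)) M))).card =
      A.card * p ^ e * (2 * M + 1) := by
    rw [Finset.card_product, Finset.card_product, Finset.card_univ, Fintype.card_fun, ZMod.card,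
      Fintype.card_fin, Int.card_Icc]
    have : ((M : ℤ) + 1 - -(M : ℤ)).toNat = 2 * M + 1 := by omega
    rw [this, mul_assoc]
  rw [← hcard]
  refine Finset.card_le_card_of_injOn
    (fun v => (x v, y v, (l * (2 * z v - c)).valMinAbs)) ?_ ?_
  · intro v hv
    rw [Finset.mem_coe, Finset.mem_filter] at hv
    rw [Finset.mem_coe, Finset.mem_product, Finset.mem_product, Finset.mem_Icc]
    refine ⟨hv.2.1, Finset.mem_univ _, ?_, ?_⟩
    · have := hv.2.2
      show -(M : ℤ) ≤ (l * (2 * z v - c)).valMinAbs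
      omega
    · have := hv.2.2
      show (l * (2 * z v - c)).valMinAbs ≤ (M : ℤ)
      omega
  · intro v _ w _ hvw
    simp only [Prod.mk.injEq] at hvw
    obtain ⟨hx, hy, hz⟩ := hvw
    apply hinj
    have h6 : l * (2 * z v - c) = l * (2 * z w - c) := ZMod.injective_valMinAbs hz
    have h7 : 2 * z v - c = 2 * z w - c := mul_left_cancel₀ hl h6
    have h8 : 2 * z v = 2 * z w := sub_left_injective h7
    have h9 : z v = z w := mul_left_cancel₀ h2 h8
    show (x v, y v, z v) = (x w, y w, z w)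
    rw [hx, hy, h9]

/-- row doubling. Take the least `i` with `p ≤ 4 * 2 ^ i * |t|`; if `i > 0` then `4 * 2^(i-1) |t| < p`, so `2 * 2 ^ i |t| < p` and
`valMinAbs (2 ^ i t) = 2 ^ i * valMinAbs t`. -/
theorem doubling (p : ℕ) [Fact p.Prime] (t : ZMod p) (L : ℕ) (h : p ≤ 4 * 2 ^ L * t.valMinAbs.natAbs) :
    ∃ i ≤ L, p ≤ 4 * ((2 ^ i : ℕ) * t : ZMod p).valMinAbs.natAbs := by
  classical
  have hex : ∃ i, p ≤ 4 * 2 ^ i * t.valMinAbs.natAbs := ⟨L, h⟩
  refine ⟨Nat.find hex, Nat.find_min' hex h, ?_⟩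
  have hspec := Nat.find_spec hex
  rcases Nat.eq_zero_or_pos (Nat.find hex) with h0 | h0
  · rw [h0] at hspec ⊢
    simpa using hspec
  · have hmin := Nat.find_min hex (Nat.sub_one_lt_of_lt h0)
    set i := Nat.find hex with hi
    rw [not_le] at hmin
    have h2 : 2 ^ i = 2 * 2 ^ (i - 1) := by
      rw [← pow_succ']
      congr 1
      omega
    have h3 : 2 * (2 ^ i * t.valMinAbs.natAbs) < p := by
      rw [h2]
      calc 2 * (2 * 2 ^ (i - 1) * t.valMinAbs.natAbs) = 4 * 2 ^ (i - 1) * t.valMinAbs.natAbs := by ring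
        _ < p := hmin
    have h4 : ((2 ^ i : ℕ) * t : ZMod p).valMinAbs = 2 ^ i * t.valMinAbs := by
      rw [ZMod.valMinAbs_spec]
      refine ⟨?_, ?_⟩
      · simp
      · have h5 : ((2 ^ i * t.valMinAbs).natAbs : ℤ) = 2 ^ i * (t.valMinAbs.natAbs : ℤ) := by
          rw [Int.natAbs_mul, Int.natAbs_pow]
          push_cast
          norm_num
        have h6 : |2 ^ i * t.valMinAbs| = 2 ^ i * (t.valMinAbs.natAbs : ℤ) := by
          rw [Int.abs_eq_natAbs, h5]
        have h7 : 2 * (2 ^ i * (t.valMinAbs.natAbs : ℤ)) < p := by exact_mod_cast h3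
        rw [← h6] at h7
        have h8 := abs_le.1 (le_refl |2 ^ i * t.valMinAbs|)
        rw [Set.mem_Ioc]
        constructor <;> linarith [h8.1, h8.2]
    rw [h4, Int.natAbs_mul, Int.natAbs_pow]
    have h9 : (2 : ℤ).natAbs = 2 := rfl
    rw [h9]
    linarith

private theorem geoA_ee (p : ℕ) [Fact p.Prime] (r : ℤ) :
    (ee p (r : ZMod p)).re = Real.cos (2 * Real.pi * r / p) := by
  have h1 : ee p (r : ZMod p) = Complex.exp (2 * Real.pi * Complex.I * (r : ℂ) / p) := ZMod.stdAddChar_coe r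
  have h2 : 2 * (Real.pi : ℂ) * Complex.I * (r : ℂ) / (p : ℂ) =
      ((2 * Real.pi * r / p : ℝ) : ℂ) * Complex.I := by
    push_cast
    ring
  rw [h1, h2, Complex.exp_ofReal_mul_I_re]

open Classical in
/-- row geoA. `ρ` with `ρ^2 = conj (ee (j l c))`, `ζ v = ee (j l z v) ρ`: `(ζ v)^2 = ee (j l (2 z v - c))` has real part `≤ 0`
(`cos(2 pi a / p)`, `p/4 ≤ |a| ≤ p/2`), so `|Re ζ| ≤ |Im ζ|`; `I` = the `v` in `U` with `Im ζ > 0`, or `Im ζ < 0`. For two of them
`Re (ζ u ζ v) ≤ 0`; for adjacent ones `ζ u ζ v = exp(2 pi i r/p)`, `16 |r| ≤ p`. -/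
theorem geoA (p : ℕ) [Fact p.Prime] {V : Type} (G : SimpleGraph V) (z : V → ZMod p) (t c : ZMod p) (U : Finset V)
    (hU : ∀ v ∈ U, p ≤ 4 * (t * (2 * z v - c)).valMinAbs.natAbs)
    (hG : ∀ u ∈ U, ∀ v ∈ U, G.Adj u v → ∃ r : ℤ, (r : ZMod p) = t * (z u + z v - c) ∧ 16 * |r| ≤ p) :
    ∃ I : Finset V, G.IsIndepSet (I : Set V) ∧ U.card ≤ 2 * I.card := by
  have hp0 : (0 : ℝ) < p := by exact_mod_cast (Fact.out : p.Prime).pos
  have hadd : ∀ a b : ZMod p, ee p (a + b) = ee p a * ee p b := fun a b => AddChar.map_add_eq_mul _ a b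
  obtain ⟨ρ, hρ⟩ := IsAlgClosed.exists_pow_nat_eq (ee p (-(t * c))) (n := 2) (by norm_num)
  let ζ : V → ℂ := fun v => ee p (t * z v) * ρ
  have hζ : ∀ u v, ζ u * ζ v = ee p (t * (z u + z v - c)) := by
    intro u v
    have h1 : t * (z u + z v - c) = (t * z u + t * z v) + -(t * c) := by ring
    rw [h1, hadd, hadd, ← hρ]
    ring
  -- real parts
  have hsq : ∀ v ∈ U, |(ζ v).re| ≤ |(ζ v).im| := by
    intro v hv
    have h1 : ζ v * ζ v = ee p (((t * (2 * z v - c)).valMinAbs : ℤ) : ZMod p) := by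
      rw [hζ, ZMod.coe_valMinAbs]
      congr 1
      ring
    have h2 : (ζ v * ζ v).re ≤ 0 := by
      rw [h1, geoA_ee]
      set a := (t * (2 * z v - c)).valMinAbs with ha
      have h3 : (p : ℝ) ≤ 4 * |(a : ℝ)| := by
        have h4 := hU v hv
        rw [← ha] at h4
        have h5 : (p : ℤ) ≤ 4 * |a| := by
          rw [Int.abs_eq_natAbs]
          exact_mod_cast h4
        exact_mod_cast h5
      have h6 : 2 * |(a : ℝ)| ≤ p := by
        have h7 : (a.natAbs : ℕ) ≤ p / 2 := by rw [ha]; exact ZMod.natAbs_valMinAbs_le _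
        have h8 : 2 * a.natAbs ≤ p := by omega
        have h9 : 2 * |a| ≤ (p : ℤ) := by
          rw [Int.abs_eq_natAbs]
          exact_mod_cast h8
        exact_mod_cast h9
      rw [← Real.cos_abs]
      have h10 : |2 * Real.pi * (a : ℝ) / p| = 2 * Real.pi * |(a : ℝ)| / p := by
        rw [abs_div, abs_mul, abs_of_pos (by positivity : (0 : ℝ) < 2 * Real.pi), abs_of_pos hp0]
      rw [h10]
      apply Real.cos_nonpos_of_pi_div_two_le_of_le
      · rw [le_div_iff₀ hp0]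
        nlinarith [Real.pi_pos]
      · rw [div_le_iff₀ hp0]
        nlinarith [Real.pi_pos]
    rw [Complex.mul_re] at h2
    exact sq_le_sq.1 (by nlinarith)
  have hne : ∀ v ∈ U, (ζ v).im ≠ 0 := by
    intro v hv h0
    have h1 := hsq v hv
    rw [h0, abs_zero] at h1
    have h2 : (ζ v).re = 0 := abs_nonpos_iff.1 h1
    have h3 : ζ v = 0 := Complex.ext h2 h0
    have h4 : ζ v * ζ v = ee p (t * (z v + z v - c)) := hζ v v
    rw [h3, zero_mul] at h4
    have h5 := hadd (t * (z v + z v - c)) (-(t * (z v + z v - c)))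
    rw [← h4, zero_mul, add_neg_cancel] at h5
    have h6 : ee p (0 : ZMod p) = 1 := AddChar.map_zero_eq_one _
    rw [h6] at h5
    exact one_ne_zero h5
  have hadj : ∀ u ∈ U, ∀ v ∈ U, G.Adj u v → 0 < (ζ u * ζ v).re := by
    intro u hu v hv huv
    obtain ⟨r, hr1, hr2⟩ := hG u hu v hv huv
    rw [hζ, ← hr1, geoA_ee]
    have h1 : 16 * |(r : ℝ)| ≤ p := by exact_mod_cast hr2
    apply Real.cos_pos_of_mem_Ioo
    have h2 := abs_le.1 (le_refl |(r : ℝ)|)
    constructor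
    · rw [lt_div_iff₀ hp0]
      nlinarith [Real.pi_pos, h2.1, abs_nonneg (r : ℝ)]
    · rw [div_lt_iff₀ hp0]
      nlinarith [Real.pi_pos, h2.2, abs_nonneg (r : ℝ)]
  have hindep : ∀ I : Finset V, I ⊆ U → (∀ u ∈ I, ∀ v ∈ I, 0 < (ζ u).im * (ζ v).im) →
      G.IsIndepSet (I : Set V) := by
    intro I hI hpos u hu v hv _ huv
    have h1 := hadj u (hI hu) v (hI hv) huv
    have h2 := hpos u hu v hv
    have h3 := hsq u (hI hu)
    have h4 := hsq v (hI hv)
    rw [Complex.mul_re] at h1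
    have h5 : (ζ u).re * (ζ v).re ≤ |(ζ u).im| * |(ζ v).im| := by
      calc (ζ u).re * (ζ v).re ≤ |(ζ u).re * (ζ v).re| := le_abs_self _
        _ = |(ζ u).re| * |(ζ v).re| := abs_mul _ _
        _ ≤ |(ζ u).im| * |(ζ v).im| := mul_le_mul h3 h4 (abs_nonneg _) (abs_nonneg _)
    rw [← abs_mul, abs_of_pos h2] at h5
    linarith
  have hsplit := Finset.card_filter_add_card_filter_not (s := U) (fun v => 0 < (ζ v).im)
  rcases le_total (U.filter fun v => ¬ 0 < (ζ v).im).card (U.filter fun v => 0 < (ζ v).im).card with h | h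
  · refine ⟨U.filter fun v => 0 < (ζ v).im, hindep _ (Finset.filter_subset _ _) ?_, by omega⟩
    intro u hu v hv
    exact mul_pos (Finset.mem_filter.1 hu).2 (Finset.mem_filter.1 hv).2
  · refine ⟨U.filter fun v => ¬ 0 < (ζ v).im, hindep _ (Finset.filter_subset _ _) ?_, by omega⟩
    intro u hu v hv
    rw [Finset.mem_filter] at hu hv
    have h1 : (ζ u).im < 0 := lt_of_le_of_ne (not_lt.1 hu.2) (hne u hu.1)
    have h2 : (ζ v).im < 0 := lt_of_le_of_ne (not_lt.1 hv.2) (hne v hv.1)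
    exact mul_pos_of_neg_of_neg h1 h2

open Classical in
/-- Part (A) with the parameters explicit. -/
theorem coreA (p : ℕ) [Fact p.Prime] (hp2 : p ≠ 2) (d e k : ℕ) (f : MvPolynomial (Fin d ⊕ Fin d) (ZMod p))
    (hf : f.totalDegree ≤ k) {V : Type} [Fintype V] (G : SimpleGraph V) (x : V → Fin d → ZMod p)
    (y : V → Fin e → ZMod p) (z : V → ZMod p) (hinj : Function.Injective fun v => (x v, y v, z v))
    (hG : ∀ u v, G.Adj u v → z u + z v = MvPolynomial.eval (Sum.elim (x u) (x v)) f)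
    (Q L R : ℕ) (hRp : R < p) (hQ : Q ^ ((k + 1) ^ (2 * d)) < p) (hQ1 : 1 ≤ Q)
    (hR : 16 * 2 ^ L * (k + 1) ^ (2 * d) * R ^ (2 * d * k) ≤ Q)
    (hV1 : p ^ (d + e + 1) ≤ 2 ^ L * Fintype.card V) (hV2 : 4 * p ^ (d + e) ≤ Fintype.card V) :
    ∃ I : Finset V, G.IsIndepSet (I : Set V) ∧
      (R + 1) ^ d * Fintype.card V ≤ 8 * (L + 1) * p ^ d * I.card := by
  have hp0 : 0 < p := (Fact.out : p.Prime).pos
  -- the box
  set g : (Fin d → Fin (R + 1)) → (Fin d → ZMod p) := fun n i => ((n i : ℕ) : ZMod p) with hg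
  have hginj : Function.Injective g := by
    intro n n' h
    funext i
    have h1 := congrFun h i
    simp only [hg] at h1
    have h2 := (ZMod.natCast_eq_natCast_iff' _ _ _).1 h1
    rw [Nat.mod_eq_of_lt (by omega : (n i : ℕ) < p), Nat.mod_eq_of_lt (by omega : (n' i : ℕ) < p)] at h2
    exact Fin.ext h2
  set A : Finset (Fin d → ZMod p) := univ.image g with hA
  have hAc : A.card = (R + 1) ^ d := by
    rw [hA, Finset.card_image_of_injective _ hginj, Finset.card_univ, Fintype.card_fun, Fintype.card_fin,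
      Fintype.card_fin]
  obtain ⟨s, hs⟩ := shift (univ : Finset V) x A
  have hX : Fintype.card (Fin d → ZMod p) = p ^ d := by
    rw [Fintype.card_fun, ZMod.card, Fintype.card_fin]
  rw [hX, hAc, Finset.card_univ] at hs
  set U := univ.filter (fun u : V => x u - s ∈ A) with hU
  replace hs : Fintype.card V * (R + 1) ^ d ≤ p ^ d * U.card := by
    refine hs.trans (le_of_eq ?_)
    congr 1
    apply congrArg
    ext v
    simp only [hU, Finset.mem_filter]
  have hbox : ∀ u ∈ U, ∃ n : Fin d → ℕ, (∀ i, n i ≤ R) ∧ x u = fun i => s i + (n i : ZMod p) := by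
    intro u hu
    rw [hU, Finset.mem_filter] at hu
    obtain ⟨n, _, hn⟩ := Finset.mem_image.1 hu.2
    refine ⟨fun i => (n i : ℕ), fun i => Nat.lt_succ_iff.1 (n i).2, ?_⟩
    funext i
    have := congrFun hn i
    simp only [hg, Pi.sub_apply] at this
    rw [this]
    ring
  obtain ⟨l, hl0, hl⟩ := small_box p d k f hf s Q (2 ^ L) R hQ hR hQ1
  set c := MvPolynomial.eval (Sum.elim s s) f with hc
  -- bad vertices
  set M := p / (4 * 2 ^ L) with hM
  have hbad := bad_count p hp2 d e (fun u => x u - s) y z (by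
    intro u v h
    apply hinj
    simp only [Prod.mk.injEq] at h ⊢
    exact ⟨sub_left_injective h.1, h.2.1, h.2.2⟩) A l c hl0 M
  rw [hAc] at hbad
  set Bd := univ.filter (fun v : V => x v - s ∈ A ∧ (l * (2 * z v - c)).valMinAbs.natAbs ≤ M) with hBd
  -- classes
  set Ui : ℕ → Finset V := fun i => U.filter (fun v => p ≤ 4 * (((2 ^ i : ℕ) : ZMod p) * l * (2 * z v - c)).valMinAbs.natAbs)
    with hUi
  have hcov : U ⊆ Bd ∪ (Finset.range (L + 1)).biUnion Ui := by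
    intro v hv
    by_cases hb : (l * (2 * z v - c)).valMinAbs.natAbs ≤ M
    · apply Finset.mem_union_left
      rw [hBd, Finset.mem_filter]
      exact ⟨Finset.mem_univ _, (Finset.mem_filter.1 hv).2, hb⟩
    · apply Finset.mem_union_right
      push Not at hb
      have h1 : p ≤ 4 * 2 ^ L * (l * (2 * z v - c)).valMinAbs.natAbs := by
        have h2 : p < 4 * 2 ^ L * (M + 1) := by
          rw [hM]
          exact Nat.lt_mul_div_succ p (by positivity)
        have h3 : 4 * 2 ^ L * (M + 1) ≤ 4 * 2 ^ L * (l * (2 * z v - c)).valMinAbs.natAbs :=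
          Nat.mul_le_mul_left _ hb
        omega
      obtain ⟨i, hi, h2⟩ := doubling p _ L h1
      rw [Finset.mem_biUnion]
      refine ⟨i, Finset.mem_range.2 (by omega), ?_⟩
      rw [hUi, Finset.mem_filter]
      refine ⟨hv, ?_⟩
      rw [mul_assoc]
      exact h2
  have hcard : U.card ≤ Bd.card + ∑ i ∈ Finset.range (L + 1), (Ui i).card :=
    (Finset.card_le_card hcov).trans ((Finset.card_union_le _ _).trans
      (Nat.add_le_add_left Finset.card_biUnion_le _))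
  -- U is large: card U / 4 ≤ sum
  have hM2 : M * (4 * 2 ^ L) ≤ p := Nat.div_mul_le_self _ _
  have hmain : U.card ≤ 4 * ∑ i ∈ Finset.range (L + 1), (Ui i).card := by
    -- (R+1)^d * p^e * (2M+1) ≤ 3/4 card U
    have h0 : 0 < p ^ d := by positivity
    have h1 : 4 * ((R + 1) ^ d * p ^ e * (2 * M + 1)) ≤ 3 * U.card := by
      have h2 : p ^ d * (2 ^ L * (4 * ((R + 1) ^ d * p ^ e * (2 * M + 1)))) ≤ p ^ d * (2 ^ L * (3 * U.card)) := by
        have e1 : p ^ d * (2 ^ L * (4 * ((R + 1) ^ d * p ^ e * (2 * M + 1)))) =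
            (R + 1) ^ d * (2 * (p ^ (d + e) * (M * (4 * 2 ^ L))) + 2 ^ L * (4 * p ^ (d + e))) := by
          rw [pow_add]; ring
        have e2 : p ^ d * (2 ^ L * (3 * U.card)) = 3 * 2 ^ L * (p ^ d * U.card) := by ring
        rw [e1, e2]
        have h3 : p ^ (d + e) * (M * (4 * 2 ^ L)) ≤ 2 ^ L * Fintype.card V := by
          refine le_trans (Nat.mul_le_mul_left _ hM2) ?_
          rw [← pow_succ]
          exact hV1
        have h4 : 2 ^ L * (4 * p ^ (d + e)) ≤ 2 ^ L * Fintype.card V := Nat.mul_le_mul_left _ hV2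
        calc (R + 1) ^ d * (2 * (p ^ (d + e) * (M * (4 * 2 ^ L))) + 2 ^ L * (4 * p ^ (d + e)))
            ≤ (R + 1) ^ d * (2 * (2 ^ L * Fintype.card V) + 2 ^ L * Fintype.card V) :=
              Nat.mul_le_mul_left _ (by omega)
          _ = 3 * 2 ^ L * (Fintype.card V * (R + 1) ^ d) := by ring
          _ ≤ 3 * 2 ^ L * (p ^ d * U.card) := Nat.mul_le_mul_left _ hs
      exact Nat.le_of_mul_le_mul_left (Nat.le_of_mul_le_mul_left h2 h0) (by positivity)
    omega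
  -- choose i
  obtain ⟨i, hi, hi2⟩ : ∃ i ∈ Finset.range (L + 1), U.card ≤ 4 * (L + 1) * (Ui i).card := by
    by_contra hcon
    push Not at hcon
    have h1 : ∑ i ∈ Finset.range (L + 1), 4 * (L + 1) * (Ui i).card < ∑ i ∈ Finset.range (L + 1), U.card :=
      Finset.sum_lt_sum_of_nonempty ⟨0, by simp⟩ hcon
    rw [← Finset.mul_sum, Finset.sum_const, Finset.card_range, smul_eq_mul] at h1
    have h2 : (L + 1) * U.card ≤ (L + 1) * (4 * ∑ i ∈ Finset.range (L + 1), (Ui i).card) :=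
      Nat.mul_le_mul_left _ hmain
    have h3 : 4 * (L + 1) * ∑ i ∈ Finset.range (L + 1), (Ui i).card =
      (L + 1) * (4 * ∑ i ∈ Finset.range (L + 1), (Ui i).card) := by ring
    omega
  have hiL : 2 ^ i ≤ 2 ^ L := Nat.pow_le_pow_right (by norm_num) (by have := Finset.mem_range.1 hi; omega)
  obtain ⟨I, hI, hIc⟩ := geoA p G z (((2 ^ i : ℕ) : ZMod p) * l) c (Ui i)
    (fun v hv => (Finset.mem_filter.1 hv).2)
    (fun u hu v hv huv => by
      obtain ⟨n, hn, hnx⟩ := hbox u (Finset.mem_filter.1 hu).1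
      obtain ⟨n', hn', hnx'⟩ := hbox v (Finset.mem_filter.1 hv).1
      obtain ⟨r, hr, hr2⟩ := hl (2 ^ i) hiL n n' hn hn'
      refine ⟨r, ?_, hr2⟩
      rw [hr, hG u v huv, hnx, hnx'])
  refine ⟨I, hI, ?_⟩
  calc (R + 1) ^ d * Fintype.card V = Fintype.card V * (R + 1) ^ d := mul_comm _ _
    _ ≤ p ^ d * U.card := hs
    _ ≤ p ^ d * (4 * (L + 1) * (Ui i).card) := Nat.mul_le_mul_left _ hi2
    _ ≤ p ^ d * (4 * (L + 1) * (2 * I.card)) := Nat.mul_le_mul_left _ (Nat.mul_le_mul_left _ hIc)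
    _ = 8 * (L + 1) * p ^ d * I.card := by ring

/-- row params. `K = (k+1)^(2d)`, `β = 1/(4K(2dk+1))`, `δ = β/8`; `Q = ceil (p^(1/(2K)))`, `L = ceil (δ log2 p)`,
`R = floor (p^β)`; all inequalities hold for large `p` (compare exponents of `p`; `n = |V|`). -/
theorem params (d e k : ℕ) (hde : d ≤ e + 1) : ∃ δ : ℝ, 0 < δ ∧ ∃ p₀ : ℕ, 3 ≤ p₀ ∧ ∀ p : ℕ, p₀ ≤ p → ∀ n : ℕ,
    (p : ℝ) ^ ((d : ℝ) + e + 1 - δ) ≤ n → n ≤ p ^ (d + e + 1) →
    ∃ Q L R : ℕ, R < p ∧ Q ^ ((k + 1) ^ (2 * d)) < p ∧ 1 ≤ Q ∧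
      16 * 2 ^ L * (k + 1) ^ (2 * d) * R ^ (2 * d * k) ≤ Q ∧ p ^ (d + e + 1) ≤ 2 ^ L * n ∧ 4 * p ^ (d + e) ≤ n ∧
      ∀ i : ℕ, (R + 1) ^ d * n ≤ 8 * (L + 1) * p ^ d * i → (n : ℝ) ^ ((1 : ℝ) / 2 + δ) ≤ i := by
  obtain ⟨K, hKdef⟩ : ∃ K : ℕ, K = (k + 1) ^ (2 * d) := ⟨_, rfl⟩
  rw [← hKdef]
  have hK : 1 ≤ K := by rw [hKdef]; exact Nat.one_le_pow _ _ (by omega)
  have hKR : (1 : ℝ) ≤ K := by exact_mod_cast hK
  have hT : (1 : ℝ) ≤ 2 * d * k + 1 := by
    have : (0 : ℝ) ≤ 2 * d * k := by positivity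
    linarith
  obtain ⟨β, hβ⟩ : ∃ β : ℝ, β = 1 / (4 * K * (2 * d * k + 1)) := ⟨_, rfl⟩
  have hβ0 : 0 < β := by rw [hβ]; positivity
  have hβ1 : β * (4 * K * (2 * d * k + 1)) = 1 := by
    rw [hβ]
    field_simp
  have hβ4 : 4 * β ≤ 1 := by
    have : (1 : ℝ) ≤ K * (2 * d * k + 1) := by nlinarith
    nlinarith
  obtain ⟨δ, hδ⟩ : ∃ δ : ℝ, δ = β / 8 := ⟨_, rfl⟩
  have hδ0 : 0 < δ := by rw [hδ]; positivity
  have hβδ : β = 8 * δ := by rw [hδ]; ring
  -- exponents
  have hx1 : β * (2 * d * k) + δ ≤ 1 / (4 * K) := by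
    rw [le_div_iff₀ (by positivity)]
    nlinarith [mul_pos hδ0 (show (0 : ℝ) < K by positivity)]
  have hx2 : δ ≤ 1 / (4 * K) := by
    have : 0 ≤ β * (2 * d * k) := by positivity
    linarith
  have hδ32 : 32 * δ ≤ 1 := by linarith
  refine ⟨δ, hδ0, ?_⟩
  have hev : ∀ᶠ p : ℕ in Filter.atTop, (64 * K * 4 ^ K : ℝ) ≤ (p : ℝ) ^ δ :=
    ((tendsto_rpow_atTop hδ0).comp tendsto_natCast_atTop_atTop).eventually_ge_atTop _
  obtain ⟨N, hN⟩ := Filter.eventually_atTop.mp hev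
  refine ⟨max 3 N, le_max_left _ _, ?_⟩
  intro p hp n hn1 hn2
  have hp3 : 3 ≤ p := le_trans (le_max_left _ _) hp
  have hC := hN p (le_trans (le_max_right _ _) hp)
  obtain ⟨P, hP⟩ : ∃ P : ℝ, P = p := ⟨_, rfl⟩
  rw [← hP] at hC hn1
  have hP3 : (3 : ℝ) ≤ P := by rw [hP]; exact_mod_cast hp3
  have hP1 : (1 : ℝ) < P := by linarith
  have hP0 : (0 : ℝ) < P := by linarith
  have h4K : (4 : ℝ) ≤ 4 ^ K := by
    calc (4 : ℝ) = 4 ^ 1 := by norm_num
      _ ≤ 4 ^ K := pow_le_pow_right₀ (by norm_num) hK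
  have hC1 : (4 : ℝ) ^ K ≤ P ^ δ := by
    refine le_trans ?_ hC
    have : (0 : ℝ) < 4 ^ K := by positivity
    nlinarith
  have hC2 : (32 * K : ℝ) ≤ P ^ δ := by
    refine le_trans ?_ hC
    nlinarith
  have hC3 : (16 : ℝ) ≤ P ^ δ := by nlinarith
  have hmono : ∀ {a b : ℝ}, a ≤ b → P ^ a ≤ P ^ b := fun h => Real.rpow_le_rpow_of_exponent_le hP1.le h
  -- Q
  obtain ⟨Q, hQ⟩ : ∃ Q : ℕ, Q = ⌈P ^ (1 / (2 * K) : ℝ)⌉₊ := ⟨_, rfl⟩
  have hQa : P ^ (1 / (2 * K) : ℝ) ≤ Q := by rw [hQ]; exact Nat.le_ceil _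
  have hone : (1 : ℝ) ≤ P ^ (1 / (2 * K) : ℝ) := Real.one_le_rpow hP1.le (by positivity)
  have hQb : (Q : ℝ) ≤ 2 * P ^ (1 / (2 * K) : ℝ) := by
    have : (Q : ℝ) < P ^ (1 / (2 * K) : ℝ) + 1 := by
      rw [hQ]; exact Nat.ceil_lt_add_one (by linarith)
    linarith
  have hQ1 : 1 ≤ Q := by
    have : (1 : ℝ) ≤ Q := le_trans hone hQa
    exact_mod_cast this
  -- L
  have hxδ1 : (1 : ℝ) ≤ P ^ δ := by linarith
  obtain ⟨l, hl1, hl2⟩ := exists_nat_pow_near hxδ1 (show (1 : ℝ) < 2 by norm_num)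
  have hL1 : P ^ δ ≤ 2 ^ (l + 1) := hl2.le
  have hL2 : (2 : ℝ) ^ (l + 1) ≤ 2 * P ^ δ := by
    rw [pow_succ]; linarith
  -- R
  obtain ⟨R, hR⟩ : ∃ R : ℕ, R = ⌊P ^ β⌋₊ := ⟨_, rfl⟩
  have hR1 : (R : ℝ) ≤ P ^ β := by rw [hR]; exact Nat.floor_le (by positivity)
  have hR2 : P ^ β ≤ (R : ℝ) + 1 := by
    have := (Nat.lt_floor_add_one (P ^ β)).le
    rw [hR]; exact this
  refine ⟨Q, l + 1, R, ?_, ?_, hQ1, ?_, ?_, ?_, ?_⟩
  · have : (R : ℝ) < p := by
      rw [← hP]
      refine lt_of_le_of_lt hR1 ?_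
      calc P ^ β < P ^ (1 : ℝ) := Real.rpow_lt_rpow_of_exponent_lt hP1 (by linarith)
        _ = P := Real.rpow_one P
    exact_mod_cast this
  · have : ((Q ^ K : ℕ) : ℝ) < p := by
      push_cast
      rw [← hP]
      have h1 : (Q : ℝ) ^ K ≤ (2 * P ^ (1 / (2 * K) : ℝ)) ^ K := pow_le_pow_left₀ (by positivity) hQb K
      have h2 : (2 * P ^ (1 / (2 * K) : ℝ)) ^ K = 2 ^ K * P ^ ((1 : ℝ) / 2) := by
        rw [mul_pow, ← Real.rpow_natCast (P ^ (1 / (2 * K) : ℝ)) K, ← Real.rpow_mul hP0.le]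
        congr 2
        field_simp
      have h3 : (2 : ℝ) ^ K < P ^ ((1 : ℝ) / 2) := by
        calc (2 : ℝ) ^ K < 4 ^ K := pow_lt_pow_left₀ (by norm_num) (by norm_num) (by omega)
          _ ≤ P ^ δ := hC1
          _ ≤ P ^ ((1 : ℝ) / 2) := hmono (by linarith)
      have h4 : P = P ^ ((1 : ℝ) / 2) * P ^ ((1 : ℝ) / 2) := by
        rw [← Real.rpow_add hP0]
        norm_num
      calc (Q : ℝ) ^ K ≤ 2 ^ K * P ^ ((1 : ℝ) / 2) := by rw [← h2]; exact h1
        _ < P ^ ((1 : ℝ) / 2) * P ^ ((1 : ℝ) / 2) := by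
            have : 0 < P ^ ((1 : ℝ) / 2) := by positivity
            exact mul_lt_mul_of_pos_right h3 this
        _ = P := h4.symm
    exact_mod_cast this
  · have : ((16 * 2 ^ (l + 1) * K * R ^ (2 * d * k) : ℕ) : ℝ) ≤ Q := by
      push_cast
      have h1 : (R : ℝ) ^ (2 * d * k) ≤ P ^ (β * (2 * d * k)) := by
        calc (R : ℝ) ^ (2 * d * k) ≤ (P ^ β) ^ (2 * d * k) := pow_le_pow_left₀ (by positivity) hR1 _
          _ = P ^ (β * (2 * d * k)) := by
              rw [← Real.rpow_natCast, ← Real.rpow_mul hP0.le]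
              push_cast
              rfl
      have h2 : (16 : ℝ) * 2 ^ (l + 1) * K * R ^ (2 * d * k) ≤ 16 * (2 * P ^ δ) * K * P ^ (β * (2 * d * k)) := by
        gcongr
      have h3 : (16 : ℝ) * (2 * P ^ δ) * K * P ^ (β * (2 * d * k)) = 32 * K * P ^ (β * (2 * d * k) + δ) := by
        rw [Real.rpow_add hP0]; ring
      have h4 : (32 * K : ℝ) * P ^ (β * (2 * d * k) + δ) ≤ P ^ (1 / (4 * K) : ℝ) * P ^ (1 / (4 * K) : ℝ) := by
        apply mul_le_mul (le_trans hC2 (hmono hx2)) (hmono hx1) (by positivity) (by positivity)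
      have h5 : P ^ (1 / (4 * K) : ℝ) * P ^ (1 / (4 * K) : ℝ) = P ^ (1 / (2 * K) : ℝ) := by
        rw [← Real.rpow_add hP0]
        congr 1
        field_simp
        norm_num
      calc (16 : ℝ) * 2 ^ (l + 1) * K * R ^ (2 * d * k) ≤ 32 * K * P ^ (β * (2 * d * k) + δ) := by
            rw [← h3]; exact h2
        _ ≤ P ^ (1 / (2 * K) : ℝ) := by rw [← h5]; exact h4
        _ ≤ Q := hQa
    exact_mod_cast this
  · have : ((p ^ (d + e + 1) : ℕ) : ℝ) ≤ ((2 ^ (l + 1) * n : ℕ) : ℝ) := by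
      push_cast
      rw [← hP]
      have h1 : P ^ (d + e + 1) = P ^ δ * P ^ ((d : ℝ) + e + 1 - δ) := by
        rw [← Real.rpow_add hP0, ← Real.rpow_natCast]
        congr 1
        push_cast
        ring
      rw [h1]
      exact mul_le_mul hL1 hn1 (by positivity) (by positivity)
    exact_mod_cast this
  · have : ((4 * p ^ (d + e) : ℕ) : ℝ) ≤ n := by
      push_cast
      rw [← hP]
      refine le_trans ?_ hn1
      have h1 : P ^ ((d : ℝ) + e + 1 - δ) = P ^ (1 - δ) * P ^ (d + e) := by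
        rw [← Real.rpow_natCast, ← Real.rpow_add hP0]
        congr 1
        push_cast
        ring
      rw [h1]
      have h2 : (4 : ℝ) ≤ P ^ (1 - δ) := by
        calc (4 : ℝ) ≤ P ^ δ := by linarith
          _ ≤ P ^ (1 - δ) := hmono (by linarith)
      exact mul_le_mul_of_nonneg_right h2 (by positivity)
    exact_mod_cast this
  · intro i hi
    have hi' : ((R : ℝ) + 1) ^ d * n ≤ 8 * ((l : ℝ) + 1 + 1) * P ^ d * i := by
      rw [hP]
      exact_mod_cast hi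
    have hn0 : (0 : ℝ) < n := lt_of_lt_of_le (by positivity) hn1
    have h1 : (P ^ β) ^ d * n ≤ ((R : ℝ) + 1) ^ d * n :=
      mul_le_mul_of_nonneg_right (pow_le_pow_left₀ (by positivity) hR2 d) hn0.le
    have h2 : ((l : ℝ) + 1 + 1) ≤ 2 ^ (l + 1) := by
      have : l + 1 + 1 ≤ 2 ^ (l + 1) := Nat.lt_two_pow_self
      exact_mod_cast this
    have h3 : 8 * ((l : ℝ) + 1 + 1) * P ^ d * i ≤ 16 * P ^ δ * P ^ d * i := by
      have : 8 * ((l : ℝ) + 1 + 1) ≤ 16 * P ^ δ := by linarith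
      gcongr
    have hkey : (n : ℝ) ^ ((1 : ℝ) / 2 + δ) * (16 * P ^ δ * P ^ d) ≤ (P ^ β) ^ d * n := by
      have h4 : (n : ℝ) = (n : ℝ) ^ ((1 : ℝ) / 2 + δ) * (n : ℝ) ^ ((1 : ℝ) / 2 - δ) := by
        rw [← Real.rpow_add hn0]
        norm_num
      have h5 : P ^ (((d : ℝ) + e + 1 - δ) * (1 / 2 - δ)) ≤ (n : ℝ) ^ ((1 : ℝ) / 2 - δ) := by
        rw [Real.rpow_mul hP0.le]
        exact Real.rpow_le_rpow (by positivity) hn1 (by linarith)
      have h6 : 16 * P ^ δ * P ^ d ≤ (P ^ β) ^ d * P ^ (((d : ℝ) + e + 1 - δ) * (1 / 2 - δ)) := by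
        have h7 : 16 * P ^ δ * P ^ d ≤ P ^ δ * P ^ δ * P ^ d := by
          have := hC3
          gcongr
        refine le_trans h7 ?_
        rw [← Real.rpow_natCast P d, ← Real.rpow_natCast (P ^ β) d, ← Real.rpow_mul hP0.le, ← Real.rpow_add hP0,
          ← Real.rpow_add hP0, ← Real.rpow_add hP0]
        apply hmono
        have hde' : (d : ℝ) ≤ e + 1 := by exact_mod_cast hde
        rcases Nat.eq_zero_or_pos d with h0 | h0
        · rw [h0]
          have he : (0 : ℝ) ≤ e := by positivity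
          push_cast
          nlinarith
        · have hd1 : (1 : ℝ) ≤ d := by exact_mod_cast h0
          obtain ⟨g, hg⟩ : ∃ g : ℝ, g = (e : ℝ) + 1 - d := ⟨_, rfl⟩
          have hg0 : 0 ≤ g := by rw [hg]; linarith
          have he : (e : ℝ) = g + d - 1 := by rw [hg]; ring
          rw [he, hβδ]
          nlinarith [mul_nonneg hg0 hδ0.le, mul_nonneg hg0 (show (0 : ℝ) ≤ 1 / 2 - δ by linarith),
            mul_nonneg hδ0.le (show (0 : ℝ) ≤ (d : ℝ) - 1 by linarith), mul_pos hδ0 hδ0]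
      calc (n : ℝ) ^ ((1 : ℝ) / 2 + δ) * (16 * P ^ δ * P ^ d)
          ≤ (n : ℝ) ^ ((1 : ℝ) / 2 + δ) * ((P ^ β) ^ d * (n : ℝ) ^ ((1 : ℝ) / 2 - δ)) := by
            refine mul_le_mul_of_nonneg_left (le_trans h6 ?_) (by positivity)
            exact mul_le_mul_of_nonneg_left h5 (by positivity)
        _ = (P ^ β) ^ d * ((n : ℝ) ^ ((1 : ℝ) / 2 + δ) * (n : ℝ) ^ ((1 : ℝ) / 2 - δ)) := by ring
        _ = (P ^ β) ^ d * n := by rw [← h4]
    have hpos : 0 < 16 * P ^ δ * P ^ d := by positivity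
    have hfin : (n : ℝ) ^ ((1 : ℝ) / 2 + δ) * (16 * P ^ δ * P ^ d) ≤ (i : ℝ) * (16 * P ^ δ * P ^ d) := by
      calc _ ≤ (P ^ β) ^ d * n := hkey
        _ ≤ ((R : ℝ) + 1) ^ d * n := h1
        _ ≤ 8 * ((l : ℝ) + 1 + 1) * P ^ d * i := hi'
        _ ≤ 16 * P ^ δ * P ^ d * i := h3
        _ = (i : ℝ) * (16 * P ^ δ * P ^ d) := by ring
    exact le_of_mul_le_mul_right hfin hpos

end Pool.Agent.C4f
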