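import Pool.Agent.C4f.Gs

/-! # Averages over the characters, and the independent sets -/

namespace Pool.Agent.C4f

open Finset

variable {X : Type} [AddCommGroup X] [Fintype X]

/-- row fib. `F x = F y` gives `b (x-y) (x+y) = 0` (double it), `y = x` or `y = -x`; `F 0 = 0`. -/
theorem Dat.fib (D : Dat X) [DecidableEq X] :
    (∀ y : X, (univ.filter fun x => D.F x = y).card ≤ 2) ∧ (univ.filter fun x => D.F x = 0).card = 1 := by
  have h0 : D.F 0 = 0 := by
    have h := D.F_nsmul 0 0
    simpa using h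
  have h1 : ∀ x y : X, D.F x = D.F y → x = y ∨ x = -y := by
    intro x y h
    have h2 : D.b x x = D.b y y := by rw [← D.two_F, ← D.two_F, h]
    have h3 : D.b (x - y) (x + y) = 0 := by
      rw [map_sub D.b, AddMonoidHom.sub_apply, map_add (D.b x), map_add (D.b y), D.symm y x, h2]
      abel
    rcases D.nz _ _ h3 with h4 | h4
    · exact Or.inl (sub_eq_zero.1 h4)
    · exact Or.inr (eq_neg_of_add_eq_zero_left h4)
  constructor
  · intro y
    rcases (univ.filter fun x => D.F x = y).eq_empty_or_nonempty with he | ⟨x0, hx0⟩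
    · rw [he]
      simp
    · have hx0' : D.F x0 = y := (mem_filter.1 hx0).2
      refine (card_le_card (t := {x0, -x0}) fun x hx => ?_).trans Finset.card_le_two
      have hx' : D.F x = y := (mem_filter.1 hx).2
      rw [mem_insert, mem_singleton]
      exact h1 x x0 (hx'.trans hx0'.symm)
  · rw [card_eq_one]
    refine ⟨0, ?_⟩
    ext x
    simp only [mem_filter, mem_univ, true_and, mem_singleton]
    constructor
    · intro h
      have h2 : D.b x x = 0 := by rw [← D.two_F, h, smul_zero]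
      rcases D.nz _ _ h2 with h3 | h3 <;> exact h3
    · rintro rfl
      exact h0

/-- row sum_S. Exchange the sums; orthogonality of the characters (`AddChar.sum_apply_eq_ite`). -/
theorem Dat.sum_S (D : Dat X) [DecidableEq X] (h : X) :
    ∑ ψ : AddChar X ℂ, D.S ψ * ψ h = (Fintype.card X : ℂ) * ((univ.filter fun x => D.F x = -h).card : ℂ) := by
  have h1 : ∀ ψ : AddChar X ℂ, D.S ψ * ψ h = ∑ x : X, ψ (D.F x + h) := by
    intro ψ
    unfold Dat.S
    rw [Finset.sum_mul]
    refine Finset.sum_congr rfl fun x _ => ?_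
    rw [AddChar.map_add_eq_mul]
  rw [Finset.sum_congr rfl fun ψ _ => h1 ψ, Finset.sum_comm]
  simp only [AddChar.sum_apply_eq_ite]
  rw [Finset.card_filter]
  push_cast
  rw [Finset.mul_sum]
  refine Finset.sum_congr rfl fun x _ => ?_
  by_cases hx : D.F x = -h
  · rw [if_pos hx, if_pos (by rw [hx, neg_add_cancel]), mul_one]
  · rw [if_neg hx, if_neg (fun h' => hx (eq_neg_of_add_eq_zero_left h')), mul_zero]

open Classical in
/-- row tau. `τ ψ = 1` if `S ψ = η √q` and `-1` otherwise. `η √q ∑_{ψ ≠ 1} τ ψ(h) = ∑_{ψ ≠ 1} S ψ ψ(h) = q N - q` with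
`N ≤ 2`, and `N = 1` for `h = 0` (`fib`, `sum_S`; `S 1 = q`). -/
theorem Dat.tau (D : Dat X) (η : ℂ) (hη : ‖η‖ = 1) (τ : AddChar X ℂ → ℝ)
    (hτ : ∀ ψ : AddChar X ℂ, ψ ≠ 1 → D.S ψ = (τ ψ : ℂ) * (η * (Real.sqrt (Fintype.card X) : ℂ))) :
    (∑ ψ ∈ univ.filter (fun ψ : AddChar X ℂ => ψ ≠ 1), τ ψ = 0) ∧
      ∀ h : X, |∑ ψ ∈ univ.filter (fun ψ : AddChar X ℂ => ψ ≠ 1), τ ψ * (ψ h).re| ≤ Real.sqrt (Fintype.card X) := by
  have hq : (0 : ℝ) < Fintype.card X := by exact_mod_cast Fintype.card_pos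
  have hsq : (0 : ℝ) < Real.sqrt (Fintype.card X) := Real.sqrt_pos.2 hq
  have hs : ‖η * (Real.sqrt (Fintype.card X) : ℂ)‖ = Real.sqrt (Fintype.card X) := by
    rw [norm_mul, hη, one_mul, Complex.norm_real, Real.norm_eq_abs, abs_of_pos hsq]
  have hS1 : D.S 1 = Fintype.card X := by
    unfold Dat.S
    simp
  have key : ∀ h : X, (η * (Real.sqrt (Fintype.card X) : ℂ)) *
      ∑ ψ ∈ univ.filter (fun ψ : AddChar X ℂ => ψ ≠ 1), (τ ψ : ℂ) * ψ h =
      (Fintype.card X : ℂ) * (((univ.filter fun x => D.F x = -h).card : ℂ) - 1) := by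
    intro h
    have h1 := D.sum_S h
    rw [← Finset.sum_filter_add_sum_filter_not univ (fun ψ : AddChar X ℂ => ψ ≠ 1)] at h1
    have h2 : ∑ ψ ∈ univ.filter (fun ψ : AddChar X ℂ => ¬ ψ ≠ 1), D.S ψ * ψ h = Fintype.card X := by
      have h3 : univ.filter (fun ψ : AddChar X ℂ => ¬ ψ ≠ 1) = {1} := by
        ext ψ
        simp
      rw [h3, Finset.sum_singleton, hS1, AddChar.one_apply, mul_one]
    have h4 : ∑ ψ ∈ univ.filter (fun ψ : AddChar X ℂ => ψ ≠ 1), D.S ψ * ψ h =
        (η * (Real.sqrt (Fintype.card X) : ℂ)) *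
          ∑ ψ ∈ univ.filter (fun ψ : AddChar X ℂ => ψ ≠ 1), (τ ψ : ℂ) * ψ h := by
      rw [Finset.mul_sum]
      refine Finset.sum_congr rfl fun ψ hψ => ?_
      rw [hτ ψ (mem_filter.1 hψ).2]
      ring
    rw [h2, h4] at h1
    rw [mul_sub, mul_one, ← h1]
    ring
  constructor
  · have h1 := key 0
    rw [neg_zero, D.fib.2] at h1
    simp only [AddChar.map_zero_eq_one, mul_one, Nat.cast_one, sub_self, mul_zero] at h1
    have h2 : η * (Real.sqrt (Fintype.card X) : ℂ) ≠ 0 := by
      intro h0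
      rw [h0, norm_zero] at hs
      exact hsq.ne hs
    have h3 := (mul_eq_zero.1 h1).resolve_left h2
    exact_mod_cast h3
  · intro h
    have h1 := key h
    have h2 : |(((univ.filter fun x => D.F x = -h).card : ℝ)) - 1| ≤ 1 := by
      have h3 : (((univ.filter fun x => D.F x = -h).card : ℝ)) ≤ 2 := by exact_mod_cast D.fib.1 (-h)
      have h4 : (0 : ℝ) ≤ ((univ.filter fun x => D.F x = -h).card : ℝ) := Nat.cast_nonneg _
      rw [abs_le]
      constructor <;> linarith
    have h5 : ‖∑ ψ ∈ univ.filter (fun ψ : AddChar X ℂ => ψ ≠ 1), (τ ψ : ℂ) * ψ h‖ ≤ Real.sqrt (Fintype.card X) := by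
      have h6 := congrArg norm h1
      rw [norm_mul, hs, norm_mul, Complex.norm_natCast] at h6
      have h7 : ‖(((univ.filter fun x => D.F x = -h).card : ℂ) - 1)‖ =
          |(((univ.filter fun x => D.F x = -h).card : ℝ)) - 1| := by
        rw [← Real.norm_eq_abs, ← Complex.norm_real]
        push_cast
        rfl
      rw [h7] at h6
      have h8 : Real.sqrt (Fintype.card X) * Real.sqrt (Fintype.card X) = Fintype.card X :=
        Real.mul_self_sqrt hq.le
      refine le_of_mul_le_mul_left ?_ hsq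
      rw [h6, h8]
      calc (Fintype.card X : ℝ) * |(((univ.filter fun x => D.F x = -h).card : ℝ)) - 1|
          ≤ Fintype.card X * 1 := mul_le_mul_of_nonneg_left h2 hq.le
        _ = _ := mul_one _
    have h9 : ∑ ψ ∈ univ.filter (fun ψ : AddChar X ℂ => ψ ≠ 1), τ ψ * (ψ h).re =
        (∑ ψ ∈ univ.filter (fun ψ : AddChar X ℂ => ψ ≠ 1), (τ ψ : ℂ) * ψ h).re := by
      rw [Complex.re_sum]
      refine Finset.sum_congr rfl fun ψ _ => ?_
      rw [Complex.re_ofReal_mul]
    rw [h9]
    exact (Complex.abs_re_le_norm _).trans h5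

private theorem avg_two {D : Dat X} {h : X} (hh : h ≠ 0) : (2 : ℕ) • h ≠ 0 := by
  intro h2
  obtain ⟨k, hk⟩ := D.hp.odd_of_ne_two D.hodd
  have h1 := D.exp h
  rw [hk, add_nsmul, mul_nsmul, h2, smul_zero, zero_add, one_nsmul] at h1
  exact hh h1

private theorem avg_re (ψ : AddChar X ℂ) (h : X) :
    1 / 4 + (ψ ((2 : ℕ) • h)).re / 4 - (ψ h).re / 2 = ((ψ h).re ^ 2 - (ψ h).re) / 2 ∧
      |(ψ h).re| ≤ 1 := by
  have h1 : ‖ψ h‖ = 1 := ψ.norm_apply h
  have h2 : (ψ h).re ^ 2 + (ψ h).im ^ 2 = 1 := by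
    have h3 := Complex.sq_norm (ψ h)
    rw [h1, Complex.normSq_apply] at h3
    linarith
  have h3 : (ψ ((2 : ℕ) • h)).re = (ψ h).re ^ 2 - (ψ h).im ^ 2 := by
    rw [AddChar.map_nsmul_eq_pow, pow_two, Complex.mul_re]
    ring
  refine ⟨?_, ?_⟩
  · rw [h3]
    linarith
  · rw [abs_le]
    constructor <;> nlinarith [sq_nonneg (ψ h).im]

open Classical in
private theorem avg_sum {g : X} (hg : g ≠ 0) :
    ∑ ψ ∈ univ.filter (fun ψ : AddChar X ℂ => ψ ≠ 1), (ψ g).re = -1 := by
  have h1 : ∑ ψ : AddChar X ℂ, ψ g = 0 := AddChar.sum_apply_eq_zero_iff_ne_zero.2 hg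
  have h2 : ∑ ψ : AddChar X ℂ, (ψ g).re = 0 := by
    rw [← Complex.re_sum, h1, Complex.zero_re]
  rw [Finset.filter_ne' univ (1 : AddChar X ℂ)]
  have h3 := Finset.add_sum_erase univ (fun ψ : AddChar X ℂ => (ψ g).re) (Finset.mem_univ 1)
  rw [h2] at h3
  have h4 : ((1 : AddChar X ℂ) g).re = 1 := by simp
  simp only [h4] at h3
  linarith

open Classical in
private theorem avg_card : ((univ.filter (fun ψ : AddChar X ℂ => ψ ≠ 1)).card : ℝ) =
    (Fintype.card X : ℝ) - 1 := by
  rw [Finset.filter_ne' univ (1 : AddChar X ℂ), Finset.card_erase_of_mem (Finset.mem_univ _),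
    Finset.card_univ, AddChar.card_eq, Nat.cast_sub Fintype.card_pos]
  norm_num

open Classical in
/-- row avg. `T(ψ) = 1/4 + (ψ (2h)).re/4 - (ψ h).re/2 = (r^2 - r)/2`, `r = (ψ h).re`, is `≤ 1`, and `≤ 0` unless `r < 0`.
`∑_{ψ ≠ 1} T = q/4` (as `2h ≠ 0`), `|∑ τ T| ≤ (3/4) √q`; so the sum of `(1+τ)/2 T` is at least `(q - 3√q)/8`. -/
theorem Dat.avg (D : Dat X) (τ : AddChar X ℂ → ℝ) (hτ1 : ∀ ψ, ψ ≠ 1 → τ ψ = 1 ∨ τ ψ = -1)
    (h0 : ∑ ψ ∈ univ.filter (fun ψ : AddChar X ℂ => ψ ≠ 1), τ ψ = 0)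
    (h1 : ∀ h : X, |∑ ψ ∈ univ.filter (fun ψ : AddChar X ℂ => ψ ≠ 1), τ ψ * (ψ h).re| ≤ Real.sqrt (Fintype.card X))
    {h : X} (hh : h ≠ 0) :
    ((Fintype.card X : ℝ) - 3 * Real.sqrt (Fintype.card X)) / 8 ≤
      ((univ.filter fun ψ : AddChar X ℂ => ψ ≠ 1 ∧ τ ψ = 1 ∧ (ψ h).re < 0).card : ℝ) := by
  set P := univ.filter (fun ψ : AddChar X ℂ => ψ ≠ 1) with hP
  have hh2 : (2 : ℕ) • h ≠ 0 := avg_two (D := D) hh
  have hT : ∀ ψ ∈ P, (1 + τ ψ) / 2 * (1 / 4 + (ψ ((2 : ℕ) • h)).re / 4 - (ψ h).re / 2) ≤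
      if τ ψ = 1 ∧ (ψ h).re < 0 then (1 : ℝ) else 0 := by
    intro ψ hψ
    obtain ⟨e1, e2⟩ := avg_re ψ h
    rw [abs_le] at e2
    rw [e1]
    rcases hτ1 ψ (Finset.mem_filter.1 hψ).2 with ht | ht
    · rw [ht]
      by_cases hr : (ψ h).re < 0
      · rw [if_pos ⟨rfl, hr⟩]
        nlinarith
      · rw [if_neg (fun hc => hr hc.2)]
        push Not at hr
        nlinarith
    · rw [ht, if_neg]
      · norm_num
      · rintro ⟨hc, -⟩
        norm_num at hc
  have hsum := Finset.sum_le_sum hT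
  rw [Finset.sum_boole] at hsum
  have hfil : (P.filter fun ψ => τ ψ = 1 ∧ (ψ h).re < 0) =
      univ.filter fun ψ : AddChar X ℂ => ψ ≠ 1 ∧ τ ψ = 1 ∧ (ψ h).re < 0 := by
    rw [hP, Finset.filter_filter]
  rw [hfil] at hsum
  refine le_trans ?_ hsum
  have hexp : ∑ ψ ∈ P, (1 + τ ψ) / 2 * (1 / 4 + (ψ ((2 : ℕ) • h)).re / 4 - (ψ h).re / 2) =
      (P.card : ℝ) / 8 + (∑ ψ ∈ P, (ψ ((2 : ℕ) • h)).re) / 8 - (∑ ψ ∈ P, (ψ h).re) / 4 +
        (∑ ψ ∈ P, τ ψ) / 8 + (∑ ψ ∈ P, τ ψ * (ψ ((2 : ℕ) • h)).re) / 8 -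
        (∑ ψ ∈ P, τ ψ * (ψ h).re) / 4 := by
    rw [Finset.card_eq_sum_ones, Nat.cast_sum]
    simp only [Finset.sum_div]
    rw [← Finset.sum_add_distrib, ← Finset.sum_sub_distrib, ← Finset.sum_add_distrib,
      ← Finset.sum_add_distrib, ← Finset.sum_sub_distrib]
    refine Finset.sum_congr rfl fun ψ _ => ?_
    push_cast
    ring
  have a1 := abs_le.1 (h1 h)
  have a2 := abs_le.1 (h1 ((2 : ℕ) • h))
  rw [hexp, h0, avg_sum hh2, avg_sum hh, avg_card]
  linarith [a1.1, a1.2, a2.1, a2.2]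

open Classical in
/-- row pick. `q ≥ 36`. Double count the pairs `(ψ, u)` with `ψ ≠ 1`, `τ ψ = 1`, `(ψ (2 • w u)).re < 0` with `avg`; there are
`(q-1)/2` characters with `τ = 1`, and `q - 3√q ≥ q/2`. (`2 • w u ≠ 0`: exponent `p` odd.) -/
theorem Dat.pick (D : Dat X) (hq : 36 ≤ Fintype.card X) {V : Type} (U : Finset V) (w : V → X)
    (hw : ∀ u ∈ U, w u ≠ 0) :
    ∃ ψ : AddChar X ℂ, ψ ≠ 1 ∧ D.Good ψ ∧ U.card ≤ 8 * (U.filter fun u => (ψ (2 • w u)).re < 0).card := by
  obtain ⟨η, hη, hty⟩ := D.types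
  have hq' : (36 : ℝ) ≤ Fintype.card X := by exact_mod_cast hq
  have hs0 : 0 < Real.sqrt (Fintype.card X) := Real.sqrt_pos.2 (by linarith)
  have hs2 : Real.sqrt (Fintype.card X) * Real.sqrt (Fintype.card X) = Fintype.card X :=
    Real.mul_self_sqrt (by linarith)
  have hs6 : 6 ≤ Real.sqrt (Fintype.card X) := by
    rw [Real.le_sqrt (by norm_num) (by linarith)]
    linarith
  set c : ℂ := η * (Real.sqrt (Fintype.card X) : ℂ) with hc
  have hc0 : c ≠ 0 := by
    rw [hc]
    refine mul_ne_zero (fun h => ?_) (Complex.ofReal_ne_zero.2 hs0.ne')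
    rw [h, norm_zero] at hη
    exact zero_ne_one hη
  set τ : AddChar X ℂ → ℝ := fun ψ => if D.S ψ = c then 1 else -1 with hτdef
  have hτ1 : ∀ ψ : AddChar X ℂ, ψ ≠ 1 → τ ψ = 1 ∨ τ ψ = -1 := by
    intro ψ _
    rw [hτdef]
    by_cases h : D.S ψ = c
    · exact Or.inl (if_pos h)
    · exact Or.inr (if_neg h)
  have hgood : ∀ ψ : AddChar X ℂ, ψ ≠ 1 → τ ψ = 1 → D.Good ψ := by
    intro ψ hψ ht
    have h : D.S ψ = c := by
      by_contra h
      rw [hτdef] at ht
      simp only [if_neg h] at ht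
      norm_num at ht
    rcases hty ψ hψ with h2 | h2
    · exact h2.2
    · exfalso
      rw [h] at h2
      have h3 : (2 : ℂ) * c = 0 := by
        rw [two_mul]
        nth_rewrite 1 [h2]
        exact neg_add_cancel c
      rcases mul_eq_zero.1 h3 with h4 | h4
      · norm_num at h4
      · exact hc0 h4
  have hτS : ∀ ψ : AddChar X ℂ, ψ ≠ 1 → D.S ψ = (τ ψ : ℂ) * (η * (Real.sqrt (Fintype.card X) : ℂ)) := by
    intro ψ hψ
    rw [hτdef]
    by_cases h : D.S ψ = c
    · simp only [if_pos h]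
      rw [h, Complex.ofReal_one, one_mul]
    · simp only [if_neg h]
      rcases hty ψ hψ with h2 | h2
      · exact absurd h2.1 h
      · rw [h2]
        push_cast
        ring
  obtain ⟨h0, h1⟩ := D.tau η hη τ hτS
  set P := univ.filter (fun ψ : AddChar X ℂ => ψ ≠ 1) with hP
  set Q := P.filter (fun ψ => τ ψ = 1) with hQ
  have hQcard : 2 * (Q.card : ℝ) = (Fintype.card X : ℝ) - 1 := by
    have e1 : ∑ ψ ∈ P, (1 + τ ψ) = 2 * (Q.card : ℝ) := by
      rw [hQ, Finset.card_filter, Nat.cast_sum, Finset.mul_sum]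
      refine Finset.sum_congr rfl fun ψ hψ => ?_
      rcases hτ1 ψ (Finset.mem_filter.1 hψ).2 with ht | ht
      · rw [ht, if_pos rfl]
        norm_num
      · rw [ht, if_neg (by norm_num)]
        norm_num
    rw [← e1, Finset.sum_add_distrib, h0, add_zero, Finset.sum_const, nsmul_eq_mul, mul_one]
    exact avg_card
  by_contra hcon
  push Not at hcon
  have hlt : ∀ ψ ∈ Q, 8 * (U.filter fun u => (ψ (2 • w u)).re < 0).card < U.card := by
    intro ψ hψ
    rw [hQ, Finset.mem_filter, hP, Finset.mem_filter] at hψ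
    exact hcon ψ hψ.1.2 (hgood ψ hψ.1.2 hψ.2)
  have hQpos : 0 < Q.card := by
    have : (0 : ℝ) < Q.card := by linarith
    exact_mod_cast this
  have hcount : ∑ ψ ∈ Q, ((U.filter fun u => (ψ (2 • w u)).re < 0).card : ℝ) =
      ∑ u ∈ U, ((univ.filter fun ψ : AddChar X ℂ => ψ ≠ 1 ∧ τ ψ = 1 ∧ (ψ (2 • w u)).re < 0).card : ℝ) := by
    have e1 : ∀ ψ ∈ Q, ((U.filter fun u => (ψ (2 • w u)).re < 0).card : ℝ) =
        ∑ u ∈ U, if (ψ (2 • w u)).re < 0 then (1 : ℝ) else 0 := fun ψ _ => by
      rw [Finset.sum_boole]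
    rw [Finset.sum_congr rfl e1, Finset.sum_comm]
    refine Finset.sum_congr rfl fun u _ => ?_
    rw [Finset.sum_boole, hQ, hP, Finset.filter_filter, Finset.filter_filter]
  have hlow : (U.card : ℝ) * ((Fintype.card X : ℝ) / 16) ≤
      ∑ u ∈ U, ((univ.filter fun ψ : AddChar X ℂ => ψ ≠ 1 ∧ τ ψ = 1 ∧ (ψ (2 • w u)).re < 0).card : ℝ) := by
    rw [← nsmul_eq_mul]
    refine Finset.card_nsmul_le_sum _ _ _ fun u hu => ?_
    refine le_trans ?_ (D.avg τ hτ1 h0 h1 (avg_two (D := D) (hw u hu)))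
    nlinarith
  obtain ⟨ψ0, hψ0⟩ := Finset.card_pos.1 hQpos
  have hUpos : 0 < (U.card : ℝ) := by
    have := hlt ψ0 hψ0
    have h2 : 0 < U.card := by omega
    exact_mod_cast h2
  have hup : 8 * ∑ ψ ∈ Q, ((U.filter fun u => (ψ (2 • w u)).re < 0).card : ℝ) ≤ Q.card * (U.card : ℝ) := by
    rw [Finset.mul_sum, ← nsmul_eq_mul]
    refine Finset.sum_le_card_nsmul _ _ _ fun ψ hψ => ?_
    have := (hlt ψ hψ).le
    exact_mod_cast this
  rw [hcount] at hup
  nlinarith

open Classical in
/-- row shift. Pigeonhole: `∑_c #{u ∈ U : x u - c ∈ A} = |U| |A|`. -/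
theorem shift {V : Type} (U : Finset V) (x : V → X) (A : Finset X) :
    ∃ c : X, U.card * A.card ≤ Fintype.card X * (U.filter fun u => x u - c ∈ A).card := by
  have hsum : ∑ c : X, (U.filter fun u => x u - c ∈ A).card = U.card * A.card := by
    have h1 : ∀ c : X, (U.filter fun u => x u - c ∈ A).card =
        ∑ u ∈ U, if x u - c ∈ A then 1 else 0 := by
      intro c
      rw [Finset.card_filter]
    rw [Finset.sum_congr rfl fun c _ => h1 c, Finset.sum_comm]
    have h2 : ∀ u ∈ U, ∑ c : X, (if x u - c ∈ A then 1 else 0) = A.card := by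
      intro u _
      rw [← Finset.card_filter]
      apply Finset.card_bij (fun c _ => x u - c)
      · intro c hc
        exact (Finset.mem_filter.1 hc).2
      · intro c _ c' _ h
        exact sub_right_injective h
      · intro a ha
        refine ⟨x u - a, ?_, by abel⟩
        rw [Finset.mem_filter]
        refine ⟨Finset.mem_univ _, ?_⟩
        rw [sub_sub_cancel]
        exact ha
    rw [Finset.sum_congr rfl h2, Finset.sum_const, smul_eq_mul]
  by_contra hcon
  push Not at hcon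
  have h3 : ∑ c : X, Fintype.card X * (U.filter fun u => x u - c ∈ A).card <
      ∑ _c : X, U.card * A.card :=
    Finset.sum_lt_sum_of_nonempty ⟨0, Finset.mem_univ _⟩ fun c _ => hcon c
  rw [← Finset.mul_sum, hsum, Finset.sum_const, Finset.card_univ, smul_eq_mul] at h3
  exact lt_irrefl _ h3

open Classical in
/-- row geo. `I` = one of the two halves (`Im ψ(w u) > 0` or `< 0`) of `{u ∈ U : (ψ (2 • w u)).re < 0}` (there
`|Re ψ(w u)| < |Im ψ(w u)|`), then `shift`. Two adjacent ones: `ψ(w u) ψ(w v) = conj ψ(F(x u - x v))` has real part `≥ 0`, but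
`Re Re' - Im Im' < 0`. -/
theorem Dat.geo (D : Dat X) {ψ : AddChar X ℂ} (hg : D.Good ψ) {V : Type} (G : SimpleGraph V) (x w : V → X)
    (hG : ∀ u v, G.Adj u v → w u + w v = -D.F (x u - x v)) (U : Finset V) :
    ∃ I : Finset V, G.IsIndepSet (I : Set V) ∧
      ((U.filter fun u => (ψ (2 • w u)).re < 0).card : ℝ) ≤ 4 * Real.sqrt (Fintype.card X) * I.card := by
  obtain ⟨A, hA1, hA2⟩ := hg
  set U0 := U.filter fun u => (ψ (2 • w u)).re < 0 with hU0
  have hre : ∀ u ∈ U0, (ψ (w u)).re ^ 2 < (ψ (w u)).im ^ 2 := by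
    intro u hu
    have h := (Finset.mem_filter.1 hu).2
    rw [AddChar.map_nsmul_eq_pow, pow_two, Complex.mul_re] at h
    nlinarith
  have key : ∀ s : ℝ, (∀ I : Finset V, (∀ u ∈ I, u ∈ U0 ∧ 0 < s * (ψ (w u)).im) →
      (∃ c : X, ∀ u ∈ I, x u - c ∈ A) → G.IsIndepSet (I : Set V)) := by
    intro s I hI hc u hu v hv _ hadj
    obtain ⟨c, hc⟩ := hc
    have hu' := hI u (Finset.mem_coe.1 hu)
    have hv' := hI v (Finset.mem_coe.1 hv)
    have h1 := hG u v hadj
    have h2 : 0 ≤ (ψ (D.F (x u - x v))).re := by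
      have := hA2 _ (hc u (Finset.mem_coe.1 hu)) _ (hc v (Finset.mem_coe.1 hv))
      rwa [sub_sub_sub_cancel_right] at this
    have h3 : ψ (w u) * ψ (w v) = (starRingEnd ℂ) (ψ (D.F (x u - x v))) := by
      rw [← AddChar.map_add_eq_mul, h1, AddChar.map_neg_eq_conj]
    have h4 : (ψ (w u) * ψ (w v)).re = (ψ (D.F (x u - x v))).re := by
      rw [h3, Complex.conj_re]
    rw [Complex.mul_re] at h4
    have h5 := hre u hu'.1
    have h6 := hre v hv'.1
    have h7 : 0 < (ψ (w u)).im * (ψ (w v)).im := by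
      have h8 : 0 < (s * (ψ (w u)).im) * (s * (ψ (w v)).im) := mul_pos hu'.2 hv'.2
      have h9 : (s * (ψ (w u)).im) * (s * (ψ (w v)).im) = s ^ 2 * ((ψ (w u)).im * (ψ (w v)).im) := by
        ring
      rw [h9] at h8
      exact pos_of_mul_pos_right h8 (sq_nonneg s)
    have h10 : ((ψ (w u)).re * (ψ (w v)).re) ^ 2 < ((ψ (w u)).im * (ψ (w v)).im) ^ 2 := by
      rw [mul_pow, mul_pow]
      have e1 : (0 : ℝ) ≤ (ψ (w u)).re ^ 2 := sq_nonneg _
      have e2 : (0 : ℝ) ≤ (ψ (w v)).re ^ 2 := sq_nonneg _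
      nlinarith
    have h11 := abs_lt_of_sq_lt_sq h10 h7.le
    have h12 := (abs_lt.1 h11).2
    linarith
  have hq0 : (0 : ℝ) ≤ Real.sqrt (Fintype.card X) := Real.sqrt_nonneg _
  have hq2 : Real.sqrt (Fintype.card X) ^ 2 = Fintype.card X := Real.sq_sqrt (Nat.cast_nonneg _)
  have hqpos : 0 < Real.sqrt (Fintype.card X) := by
    apply Real.sqrt_pos.2
    have : 0 < Fintype.card X := Fintype.card_pos_iff.2 ⟨0⟩
    exact_mod_cast this
  have hAc : Real.sqrt (Fintype.card X) ≤ 2 * A.card := by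
    apply Real.sqrt_le_iff.2
    constructor
    · positivity
    · nlinarith
  have fin : ∀ U1 : Finset V, U0.card ≤ 2 * U1.card → (∃ s : ℝ, ∀ u ∈ U1, u ∈ U0 ∧ 0 < s * (ψ (w u)).im) →
      ∃ I : Finset V, G.IsIndepSet (I : Set V) ∧
        (U0.card : ℝ) ≤ 4 * Real.sqrt (Fintype.card X) * I.card := by
    intro U1 hU1 hs
    obtain ⟨s, hs⟩ := hs
    obtain ⟨c, hc⟩ := shift U1 x A
    refine ⟨U1.filter fun u => x u - c ∈ A, ?_, ?_⟩
    · apply key s
      · intro u hu
        exact hs u (Finset.mem_filter.1 hu).1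
      · exact ⟨c, fun u hu => (Finset.mem_filter.1 hu).2⟩
    · have hc' : (U1.card : ℝ) * A.card ≤ Fintype.card X * ((U1.filter fun u => x u - c ∈ A).card : ℝ) := by
        exact_mod_cast hc
      have hU1' : (U0.card : ℝ) ≤ 2 * U1.card := by exact_mod_cast hU1
      set N : ℝ := ((U1.filter fun u => x u - c ∈ A).card : ℝ) with hN
      have hN0 : 0 ≤ N := Nat.cast_nonneg _
      have h1 : (U1.card : ℝ) * Real.sqrt (Fintype.card X) ≤ 2 * (Real.sqrt (Fintype.card X) ^ 2 * N) := by
        rw [hq2]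
        have : (U1.card : ℝ) * Real.sqrt (Fintype.card X) ≤ (U1.card : ℝ) * (2 * A.card) :=
          mul_le_mul_of_nonneg_left hAc (Nat.cast_nonneg _)
        linarith
      have h2 : (U1.card : ℝ) ≤ 2 * Real.sqrt (Fintype.card X) * N := by
        apply le_of_mul_le_mul_right _ hqpos
        calc (U1.card : ℝ) * Real.sqrt (Fintype.card X) ≤ 2 * (Real.sqrt (Fintype.card X) ^ 2 * N) := h1
          _ = 2 * Real.sqrt (Fintype.card X) * N * Real.sqrt (Fintype.card X) := by ring
      linarith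
  have hcard := Finset.card_filter_add_card_filter_not (s := U0) (fun u => 0 < (ψ (w u)).im)
  by_cases hh : U0.card ≤ 2 * (U0.filter fun u => 0 < (ψ (w u)).im).card
  · apply fin _ hh
    refine ⟨1, ?_⟩
    intro u hu
    rw [one_mul]
    exact ⟨(Finset.mem_filter.1 hu).1, (Finset.mem_filter.1 hu).2⟩
  · apply fin (U0.filter fun u => ¬ 0 < (ψ (w u)).im) (by omega)
    refine ⟨-1, ?_⟩
    intro u hu
    have h1 := (Finset.mem_filter.1 hu).1
    have h2 := (Finset.mem_filter.1 hu).2
    refine ⟨h1, ?_⟩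
    have h3 := hre u h1
    have h4 : (ψ (w u)).im ≠ 0 := by
      intro h0
      rw [h0] at h3
      nlinarith [sq_nonneg (ψ (w u)).re]
    have h5 : (ψ (w u)).im < 0 := lt_of_le_of_ne (not_lt.1 h2) h4
    linarith

open Classical in
/-- row greedy. A maximal independent set; every vertex has at most `q` neighbours: `z v = b (x u) (x v) - z u`. -/
theorem greedy (b : X →+ X →+ X) {V : Type} [Fintype V] (G : SimpleGraph V) (x z : V → X)
    (hinj : Function.Injective fun v => (x v, z v)) (hG : ∀ u v, G.Adj u v → b (x u) (x v) = z u + z v) :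
    ∃ I : Finset V, G.IsIndepSet (I : Set V) ∧ Fintype.card V ≤ (Fintype.card X + 1) * I.card := by
  obtain ⟨I, hI, hmax⟩ := Finset.exists_max_image
    ((Finset.univ : Finset (Finset V)).filter fun I : Finset V => G.IsIndepSet (I : Set V)) Finset.card
    ⟨∅, by
      rw [Finset.mem_filter]
      refine ⟨Finset.mem_univ _, ?_⟩
      intro u hu
      simp at hu⟩
  have hI' := (Finset.mem_filter.1 hI).2
  refine ⟨I, hI', ?_⟩
  have hcov : ∀ v : V, ∃ i ∈ I, v = i ∨ G.Adj i v := by
    intro v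
    by_contra hcon
    push Not at hcon
    have hv : v ∉ I := fun h => (hcon v h).1 rfl
    have hind : G.IsIndepSet ((insert v I : Finset V) : Set V) := by
      intro a ha c hc hac hadj
      rw [Finset.mem_coe, Finset.mem_insert] at ha hc
      rcases ha with rfl | ha
      · rcases hc with rfl | hc
        · exact hac rfl
        · exact (hcon c hc).2 hadj.symm
      · rcases hc with rfl | hc
        · exact (hcon a ha).2 hadj
        · exact hI' (Finset.mem_coe.2 ha) (Finset.mem_coe.2 hc) hac hadj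
    have h1 := hmax (insert v I) (by
      rw [Finset.mem_filter]
      exact ⟨Finset.mem_univ _, hind⟩)
    rw [Finset.card_insert_of_notMem hv] at h1
    omega
  have hnb : ∀ i : V, (Finset.univ.filter fun v => v = i ∨ G.Adj i v).card ≤ Fintype.card X + 1 := by
    intro i
    have hsub : (Finset.univ.filter fun v => v = i ∨ G.Adj i v) ⊆
        insert i (Finset.univ.filter fun v => G.Adj i v) := by
      intro v hv
      rcases (Finset.mem_filter.1 hv).2 with h | h
      · rw [h]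
        exact Finset.mem_insert_self _ _
      · exact Finset.mem_insert_of_mem (Finset.mem_filter.2 ⟨Finset.mem_univ _, h⟩)
    refine (Finset.card_le_card hsub).trans ((Finset.card_insert_le _ _).trans ?_)
    apply Nat.succ_le_succ
    rw [← Finset.card_univ (α := X)]
    apply Finset.card_le_card_of_injOn x (fun _ _ => Finset.mem_coe.2 (Finset.mem_univ _))
    intro u hu v hv huv
    have h1 := hG i u (Finset.mem_filter.1 (Finset.mem_coe.1 hu)).2
    have h2 := hG i v (Finset.mem_filter.1 (Finset.mem_coe.1 hv)).2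
    rw [huv] at h1
    have h3 : z i + z u = z i + z v := by rw [← h1, ← h2]
    apply hinj
    show (x u, z u) = (x v, z v)
    rw [huv, add_left_cancel h3]
  have hunion : (Finset.univ : Finset V) ⊆ I.biUnion fun i => Finset.univ.filter fun v => v = i ∨ G.Adj i v := by
    intro v _
    obtain ⟨i, hi, h⟩ := hcov v
    exact Finset.mem_biUnion.2 ⟨i, hi, Finset.mem_filter.2 ⟨Finset.mem_univ _, h⟩⟩
  calc Fintype.card V = (Finset.univ : Finset V).card := rfl
    _ ≤ (I.biUnion fun i => Finset.univ.filter fun v => v = i ∨ G.Adj i v).card :=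
      Finset.card_le_card hunion
    _ ≤ ∑ i ∈ I, (Finset.univ.filter fun v => v = i ∨ G.Adj i v).card := Finset.card_biUnion_le
    _ ≤ ∑ _i ∈ I, (Fintype.card X + 1) := Finset.sum_le_sum fun i _ => hnb i
    _ = (Fintype.card X + 1) * I.card := by rw [Finset.sum_const, smul_eq_mul, mul_comm]

/-- row mkDat. `X` nontrivial: a prime `p` and `x ≠ 0` with `p • x = 0` (Cauchy), `b x (p • y) = b (p • x) y = 0`, so `p • y = 0` for
all `y`; `card X = p ^ m`; if `p ≠ 2` put `F x = ((p+1)/2) • b x x`. -/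
theorem mkDat [Nontrivial X] (b : X →+ X →+ X) (hs : ∀ x y, b x y = b y x)
    (hb : ∀ x y, b x y = 0 → x = 0 ∨ y = 0) :
    (∀ x : X, 2 • x = 0) ∨ ∃ D : Dat X, D.b = b := by
  classical
  set p := Nat.minFac (Fintype.card X) with hpdef
  have hcard : Fintype.card X ≠ 1 := by
    have := Fintype.one_lt_card (α := X)
    omega
  have hp : p.Prime := Nat.minFac_prime hcard
  have : Fact p.Prime := ⟨hp⟩
  obtain ⟨x, hx⟩ := exists_prime_addOrderOf_dvd_card (G := X) p (Nat.minFac_dvd _)
  have hx0 : x ≠ 0 := by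
    rintro rfl
    rw [addOrderOf_zero] at hx
    exact hp.one_lt.ne hx
  have hpx : p • x = 0 := by
    rw [← hx]
    exact addOrderOf_nsmul_eq_zero x
  have hexp : ∀ y : X, p • y = 0 := by
    intro y
    have h1 : b x (p • y) = 0 := by
      rw [map_nsmul, ← AddMonoidHom.nsmul_apply, ← map_nsmul, hpx, map_zero, AddMonoidHom.zero_apply]
    exact (hb _ _ h1).resolve_left hx0
  by_cases hp2 : p = 2
  · left
    intro y
    rw [← hp2]
    exact hexp y
  right
  obtain ⟨m, hm⟩ : ∃ m, Fintype.card X = p ^ m := by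
    let _ : Module (ZMod p) X := AddCommGroup.zmodModule hexp
    refine ⟨Module.finrank (ZMod p) X, ?_⟩
    have h := Module.card_eq_pow_finrank (K := ZMod p) (V := X)
    rw [ZMod.card] at h
    exact h
  have hodd : p % 2 = 1 := hp.eq_two_or_odd.resolve_left hp2
  have h2c : ∀ y : X, 2 • (((p + 1) / 2) • y) = y := by
    intro y
    rw [smul_smul, show 2 * ((p + 1) / 2) = p + 1 by omega, add_smul, one_smul, hexp, zero_add]
  refine ⟨{ p := p, hp := hp, hodd := hp2, m := m, card_eq := hm, exp := hexp, b := b, symm := hs, nz := hb,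
            F := fun x => ((p + 1) / 2) • b x x, F_add := ?_, F_nsmul := ?_, two_F := fun x => h2c _ }, rfl⟩
  · intro x y
    have h1 : b (x + y) (x + y) = b x x + b y y + 2 • b x y := by
      rw [map_add b x y, AddMonoidHom.add_apply, map_add, map_add, hs y x]
      abel
    rw [h1, smul_add, smul_add, smul_comm, h2c]
  · intro n x
    have h1 : b (n • x) (n • x) = (n ^ 2) • b x x := by
      rw [map_nsmul b n x, AddMonoidHom.nsmul_apply, map_nsmul, smul_smul, sq]
    change ((p + 1) / 2) • b (n • x) (n • x) = (n ^ 2) • (((p + 1) / 2) • b x x)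
    rw [h1, smul_comm]

open Classical in
/-- row oddB (uses geo, pick, greedy). `w u = z u - F (x u)`, so `w u + w v = -F(x u - x v)` for adjacent `u, v`; the `u` with
`w u = 0` are independent (`F x = 0 → x = 0`); the others: `pick`, `geo`; `q < 36`: `greedy`. -/
theorem Dat.oddB (D : Dat X) {V : Type} [Fintype V] (G : SimpleGraph V) (x z : V → X)
    (hinj : Function.Injective fun v => (x v, z v)) (hG : ∀ u v, G.Adj u v → D.b (x u) (x v) = z u + z v) :
    ∃ I : Finset V, G.IsIndepSet (I : Set V) ∧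
      (Fintype.card V : ℝ) / (100 * Real.sqrt (Fintype.card X)) ≤ I.card := by
  have hq0 : (1 : ℝ) ≤ Fintype.card X := by exact_mod_cast (Fintype.card_pos : 0 < Fintype.card X)
  have hs1 : (1 : ℝ) ≤ Real.sqrt (Fintype.card X) := by
    rw [Real.one_le_sqrt]; exact hq0
  have hsq : Real.sqrt (Fintype.card X) ^ 2 = Fintype.card X := Real.sq_sqrt (by linarith)
  set s := Real.sqrt (Fintype.card X) with hs
  rcases lt_or_ge (Fintype.card X) 36 with hq | hq
  · obtain ⟨I, hI, hc⟩ := greedy D.b G x z hinj hG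
    refine ⟨I, hI, ?_⟩
    rw [div_le_iff₀ (by positivity)]
    have h1 : (Fintype.card V : ℝ) ≤ (Fintype.card X + 1) * I.card := by exact_mod_cast hc
    have h2 : (Fintype.card X : ℝ) < 36 := by exact_mod_cast hq
    have h3 : (Fintype.card X : ℝ) + 1 ≤ 100 * s := by linarith
    calc (Fintype.card V : ℝ) ≤ (Fintype.card X + 1) * I.card := h1
      _ ≤ (100 * s) * I.card := mul_le_mul_of_nonneg_right h3 (Nat.cast_nonneg _)
      _ = I.card * (100 * s) := mul_comm _ _
  · have h2y : ∀ y : X, y + y = 0 → y = 0 := by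
      intro y hy
      have h1 := D.exp y
      obtain ⟨k, hk⟩ := D.hp.odd_of_ne_two D.hodd
      rw [hk, add_nsmul, mul_nsmul, one_nsmul, two_nsmul, hy] at h1
      simpa using h1
    have hF0 : ∀ y : X, D.F y = 0 → y = 0 := by
      intro y hy
      have h1 := D.two_F y
      rw [hy, smul_zero] at h1
      rcases D.nz y y h1.symm with h | h <;> exact h
    have hFneg : ∀ y : X, D.F (-y) = D.F y := by
      intro y
      have h1 := D.two_F y
      have h2 := D.two_F (-y)
      rw [D.symm, map_neg, D.symm, map_neg, neg_neg, ← h1, two_nsmul, two_nsmul] at h2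
      have h3 : (D.F (-y) - D.F y) + (D.F (-y) - D.F y) = 0 := by
        rw [show (D.F (-y) - D.F y) + (D.F (-y) - D.F y) = (D.F (-y) + D.F (-y)) - (D.F y + D.F y) by abel, h2, sub_self]
      exact sub_eq_zero.1 (h2y _ h3)
    set w : V → X := fun u => z u - D.F (x u) with hw
    have hGw : ∀ u v, G.Adj u v → w u + w v = -D.F (x u - x v) := by
      intro u v huv
      have h1 := hG u v huv
      have h2 : D.F (x u - x v) = D.F (x u) + D.F (x v) - D.b (x u) (x v) := by
        rw [sub_eq_add_neg, D.F_add, hFneg, map_neg]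
        abel
      rw [h2, h1, hw]
      simp only
      abel
    set U0 := univ.filter (fun u : V => w u = 0) with hU0
    set U1 := univ.filter (fun u : V => w u ≠ 0) with hU1
    have hcard : U0.card + U1.card = Fintype.card V := by
      rw [hU0, hU1, Finset.card_filter_add_card_filter_not, Finset.card_univ]
    rcases le_total (Fintype.card V) (2 * U0.card) with h | h
    · refine ⟨U0, ?_, ?_⟩
      · intro u hu v hv huv hadj
        have hu' : w u = 0 := (Finset.mem_filter.1 (Finset.mem_coe.1 hu)).2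
        have hv' : w v = 0 := (Finset.mem_filter.1 (Finset.mem_coe.1 hv)).2
        have h1 := hGw u v hadj
        rw [hu', hv', add_zero, eq_comm, neg_eq_zero] at h1
        have h2 := sub_eq_zero.1 (hF0 _ h1)
        apply huv
        apply hinj
        simp only [hw] at hu' hv'
        simp only [Prod.mk.injEq]
        refine ⟨h2, ?_⟩
        rw [sub_eq_zero.1 hu', sub_eq_zero.1 hv', h2]
      · rw [div_le_iff₀ (by positivity)]
        have h1 : (Fintype.card V : ℝ) ≤ 2 * U0.card := by exact_mod_cast h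
        have h3 : (U0.card : ℝ) * 2 ≤ U0.card * (100 * s) :=
          mul_le_mul_of_nonneg_left (by linarith) (Nat.cast_nonneg _)
        linarith
    · obtain ⟨ψ, hψ, hgood, hc⟩ := D.pick hq U1 w (fun u hu => (Finset.mem_filter.1 hu).2)
      obtain ⟨I, hI, hIc⟩ := D.geo hgood G x w hGw U1
      refine ⟨I, hI, ?_⟩
      rw [div_le_iff₀ (by positivity)]
      have h1 : (U1.card : ℝ) ≤ 8 * ((U1.filter fun u => (ψ (2 • w u)).re < 0).card : ℝ) := by
        exact_mod_cast hc
      have h2 : (Fintype.card V : ℝ) ≤ 2 * U1.card := by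
        have : Fintype.card V ≤ 2 * U1.card := by omega
        exact_mod_cast this
      have h3 : (0 : ℝ) ≤ s * I.card := by positivity
      rw [← hs] at hIc
      nlinarith

omit [Fintype X] in
private theorem iso2_bil (b : X →+ X →+ X) (x y x' y' : X) :
    b (x + y) (x' + y') = (b x x' + b x y') + (b y x' + b y y') := by
  rw [map_add b, AddMonoidHom.add_apply, map_add (b x), map_add (b y)]

omit [Fintype X] in
private theorem iso2_mem (b : X →+ X →+ X) (hs : ∀ x y, b x y = b y x) (ψ : AddChar X ℂ)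
    {W : AddSubgroup X} (hW : ∀ w ∈ W, ∀ w' ∈ W, ψ (b w w') = 1)
    (hmax : ∀ W' : AddSubgroup X, W ≤ W' → (∀ w ∈ W', ∀ w' ∈ W', ψ (b w w') = 1) → W' ≤ W)
    {x : X} (hx : ∀ w ∈ W, ψ (b w x) = 1) (h1 : ψ (b x x) = 1) : x ∈ W := by
  have h2 : W ⊔ AddSubgroup.zmultiples x ≤ W := by
    apply hmax _ le_sup_left
    intro u hu v hv
    obtain ⟨w, hw, y, hy, rfl⟩ := AddSubgroup.mem_sup.1 hu
    obtain ⟨w', hw', y', hy', rfl⟩ := AddSubgroup.mem_sup.1 hv
    obtain ⟨k, rfl⟩ := AddSubgroup.mem_zmultiples_iff.1 hy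
    obtain ⟨k', rfl⟩ := AddSubgroup.mem_zmultiples_iff.1 hy'
    have e1 : ψ (b w (k' • x)) = 1 := by
      rw [map_zsmul, AddChar.map_zsmul_eq_zpow, hx w hw, one_zpow]
    have e2 : ψ (b (k • x) w') = 1 := by
      rw [hs, map_zsmul, AddChar.map_zsmul_eq_zpow, hx w' hw', one_zpow]
    have e3 : ψ (b (k • x) (k' • x)) = 1 := by
      rw [map_zsmul, AddChar.map_zsmul_eq_zpow, hs, map_zsmul, AddChar.map_zsmul_eq_zpow, h1, one_zpow,
        one_zpow]
    rw [iso2_bil, AddChar.map_add_eq_mul, AddChar.map_add_eq_mul, AddChar.map_add_eq_mul,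
      hW w hw w' hw', e1, e2, e3]
    norm_num
  exact h2 (AddSubgroup.mem_sup_right (AddSubgroup.mem_zmultiples x))

omit [Fintype X] in
private theorem iso2_sq (h2 : ∀ x : X, 2 • x = 0) (ψ : AddChar X ℂ) (y : X) : ψ y * ψ y = 1 := by
  rw [← AddChar.map_add_eq_mul, ← two_nsmul, h2, AddChar.map_zero_eq_one]

open Classical in
private theorem iso2_perp (b : X →+ X →+ X) (ψ : AddChar X ℂ) (W : AddSubgroup X) :
    Fintype.card X ≤ (univ.filter fun x : X => ∀ w ∈ W, ψ (b w x) = 1).card * Nat.card W := by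
  let f : X → AddChar W ℂ := fun x => ψ.compAddMonoidHom ((b.flip x).comp W.subtype)
  have hf : ∀ (x : X) (w : W), f x w = ψ (b w x) := fun x w => rfl
  have h1 : (univ : Finset X).card ≤
      (univ.filter fun x : X => ∀ w ∈ W, ψ (b w x) = 1).card * ((univ : Finset X).image f).card := by
    apply Finset.card_le_mul_card_image
    intro a ha
    obtain ⟨y, _, rfl⟩ := mem_image.1 ha
    apply Finset.card_le_card_of_injOn (fun x => x - y)
    · intro x hx
      rw [Finset.mem_coe, mem_filter] at hx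
      rw [Finset.mem_coe, mem_filter]
      refine ⟨mem_univ _, fun w hw => ?_⟩
      have h3 : ψ (b w x) = ψ (b w y) := by
        have h4 := hf x ⟨w, hw⟩
        rw [hx.2, hf y ⟨w, hw⟩] at h4
        exact h4.symm
      have h5 : ψ (b w y) ≠ 0 := by
        intro h6
        have h7 := ψ.map_add_eq_mul (b w y) (-(b w y))
        rw [add_neg_cancel, AddChar.map_zero_eq_one, h6, zero_mul] at h7
        exact one_ne_zero h7
      have h6 : ψ (b w x) = ψ (b w (x - y)) * ψ (b w y) := by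
        rw [← AddChar.map_add_eq_mul, ← map_add, sub_add_cancel]
      rw [h3] at h6
      exact (mul_right_cancel₀ h5 (by rw [one_mul]; exact h6)).symm
    · intro x _ x' _ h
      exact sub_left_injective h
  have h2 : ((univ : Finset X).image f).card ≤ Nat.card W := by
    calc ((univ : Finset X).image f).card ≤ Fintype.card (AddChar W ℂ) := Finset.card_le_univ _
      _ = Fintype.card W := AddChar.card_eq
      _ = Nat.card W := (Nat.card_eq_fintype_card).symm
  rw [Finset.card_univ] at h1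
  exact h1.trans (Nat.mul_le_mul_left _ h2)

open Classical in
/-- row iso2. Exponent 2: a subgroup `W` with `ψ(b w w') = 1` on `W × W`, `q ≤ 2 |W|^2`. Take `W` maximal; for `x` in the
orthogonal `W'` with `ψ(b x x) = 1` one has `x ∈ W`; `x ↦ ψ(b x x)` is a homomorphism to `±1` on `X`, so `|W'| ≤ 2 |W|`;
`|W'| |W| ≥ q` (double count as in `card_perp`). -/
theorem iso2 (b : X →+ X →+ X) (hs : ∀ x y, b x y = b y x) (hb : ∀ x y, b x y = 0 → x = 0 ∨ y = 0)
    (h2 : ∀ x : X, 2 • x = 0) (ψ : AddChar X ℂ) :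
    ∃ W : AddSubgroup X, (∀ w ∈ W, ∀ w' ∈ W, ψ (b w w') = 1) ∧ Fintype.card X ≤ 2 * Nat.card W ^ 2 := by
  obtain ⟨W, hW⟩ := (Set.toFinite {W : AddSubgroup X | ∀ w ∈ W, ∀ w' ∈ W, ψ (b w w') = 1}).exists_maximal
    ⟨⊥, by
      intro w hw w' _
      rw [AddSubgroup.mem_bot.1 hw, map_zero, AddMonoidHom.zero_apply, AddChar.map_zero_eq_one]⟩
  have hiso : ∀ w ∈ W, ∀ w' ∈ W, ψ (b w w') = 1 := hW.1
  have hmax : ∀ W' : AddSubgroup X, W ≤ W' → (∀ w ∈ W', ∀ w' ∈ W', ψ (b w w') = 1) → W' ≤ W :=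
    fun W' h h' => hW.2 h' h
  refine ⟨W, hiso, ?_⟩
  have hcW : Nat.card W = (univ.filter (fun x => x ∈ W)).card := by
    rw [Nat.card_eq_fintype_card, Fintype.card_subtype]
  have h1 := iso2_perp b ψ W
  have h3 : (univ.filter fun x : X => ∀ w ∈ W, ψ (b w x) = 1).card ≤ 2 * Nat.card W := by
    by_cases hall : ∀ x ∈ (univ.filter fun x : X => ∀ w ∈ W, ψ (b w x) = 1), x ∈ W
    · have h4 : (univ.filter fun x : X => ∀ w ∈ W, ψ (b w x) = 1).card ≤
          (univ.filter (fun x => x ∈ W)).card :=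
        Finset.card_le_card fun x hx => mem_filter.2 ⟨mem_univ _, hall x hx⟩
      omega
    · push Not at hall
      obtain ⟨x0, hx0, hx0W⟩ := hall
      have hx0' := (mem_filter.1 hx0).2
      have hne : ∀ x : X, (∀ w ∈ W, ψ (b w x) = 1) → x ∉ W → ψ (b x x) = -1 := by
        intro x hx hxW
        rcases mul_self_eq_one_iff.1 (iso2_sq h2 ψ (b x x)) with h | h
        · exact (hxW (iso2_mem b hs ψ hiso hmax hx h)).elim
        · exact h
      have hsub : (univ.filter fun x : X => ∀ w ∈ W, ψ (b w x) = 1) ⊆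
          (univ.filter (fun x => x ∈ W)) ∪ (univ.filter (fun x => x ∈ W)).image (fun w => w + x0) := by
        intro x hx
        have hx' := (mem_filter.1 hx).2
        rw [mem_union]
        by_cases hxW : x ∈ W
        · exact Or.inl (mem_filter.2 ⟨mem_univ _, hxW⟩)
        · right
          have h5 : x + x0 ∈ W := by
            apply iso2_mem b hs ψ hiso hmax
            · intro w hw
              rw [map_add, AddChar.map_add_eq_mul, hx' w hw, hx0' w hw, one_mul]
            · rw [iso2_bil, AddChar.map_add_eq_mul, AddChar.map_add_eq_mul, AddChar.map_add_eq_mul,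
                hne x hx' hxW, hne x0 hx0' hx0W, hs x0 x]
              have h6 := iso2_sq h2 ψ (b x x0)
              linear_combination h6
          refine mem_image.2 ⟨x + x0, mem_filter.2 ⟨mem_univ _, h5⟩, ?_⟩
          have h7 := h2 x0
          rw [two_nsmul] at h7
          rw [add_assoc, h7, add_zero]
      have h8 := Finset.card_le_card hsub
      have h9 := Finset.card_union_le (univ.filter (fun x => x ∈ W))
        ((univ.filter (fun x => x ∈ W)).image (fun w => w + x0))
      have h10 : ((univ.filter (fun x => x ∈ W)).image (fun w => w + x0)).card ≤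
          (univ.filter (fun x => x ∈ W)).card := Finset.card_image_le
      omega
  calc Fintype.card X ≤ _ := h1
    _ ≤ (2 * Nat.card W) * Nat.card W := Nat.mul_le_mul_right _ h3
    _ = 2 * Nat.card W ^ 2 := by ring

open Classical in
private theorem twoB_half {V : Type} (G : SimpleGraph V) (U : Finset V) (σ : V → ℂ)
    (h1 : ∀ u ∈ U, σ u = 1 ∨ σ u = -1) (h2 : ∀ u ∈ U, ∀ v ∈ U, G.Adj u v → σ u * σ v = -1) :
    ∃ I : Finset V, G.IsIndepSet (I : Set V) ∧ U.card ≤ 2 * I.card := by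
  have hc := Finset.card_filter_add_card_filter_not (s := U) (fun u => σ u = 1)
  have hP : G.IsIndepSet ((U.filter fun u => σ u = 1 : Finset V) : Set V) := by
    intro u hu v hv _ hadj
    rw [Finset.mem_coe, Finset.mem_filter] at hu hv
    have := h2 u hu.1 v hv.1 hadj
    rw [hu.2, hv.2] at this
    norm_num at this
  have hN : G.IsIndepSet ((U.filter fun u => ¬ σ u = 1 : Finset V) : Set V) := by
    intro u hu v hv _ hadj
    rw [Finset.mem_coe, Finset.mem_filter] at hu hv
    have := h2 u hu.1 v hv.1 hadj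
    rw [(h1 u hu.1).resolve_left hu.2, (h1 v hv.1).resolve_left hv.2] at this
    norm_num at this
  by_cases h : U.card ≤ 2 * (U.filter fun u => σ u = 1).card
  · exact ⟨_, hP, h⟩
  · exact ⟨_, hN, by omega⟩

open Classical in
private theorem twoB_pick {V : Type} (V1 : Finset V) (y : V → X) (hy : ∀ u ∈ V1, y u ≠ 0)
    (hpm : ∀ (ψ : AddChar X ℂ) (a : X), ψ a = 1 ∨ ψ a = -1) :
    ∃ ψ : AddChar X ℂ, V1.card ≤ 2 * (V1.filter fun u => ψ (y u) = -1).card := by
  have h1 : ∑ ψ : AddChar X ℂ, ∑ u ∈ V1, (ψ (y u)).re ≤ ∑ _ψ : AddChar X ℂ, (0 : ℝ) := by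
    rw [Finset.sum_comm]
    simp only [Finset.sum_const_zero]
    refine le_of_eq (Finset.sum_eq_zero fun u hu => ?_)
    rw [← Complex.re_sum, AddChar.sum_apply_eq_ite, if_neg (hy u hu), Complex.zero_re]
  obtain ⟨ψ, _, hψ⟩ := Finset.exists_le_of_sum_le Finset.univ_nonempty h1
  refine ⟨ψ, ?_⟩
  have h2 : ∀ u ∈ V1, (ψ (y u)).re = 1 - 2 * (if ψ (y u) = -1 then (1 : ℝ) else 0) := by
    intro u _
    by_cases h : ψ (y u) = -1
    · rw [if_pos h, h]
      norm_num
    · rw [if_neg h, (hpm ψ (y u)).resolve_right h]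
      norm_num
  rw [Finset.sum_congr rfl h2, Finset.sum_sub_distrib, ← Finset.mul_sum, Finset.sum_boole] at hψ
  simp only [Finset.sum_const, nsmul_eq_mul, mul_one] at hψ
  have h3 : (V1.card : ℝ) ≤ 2 * ((V1.filter fun u => ψ (y u) = -1).card : ℝ) := by linarith
  exact_mod_cast h3

open Classical in
/-- row twoB. `x u = 0`: independent. Otherwise `b (x u) (x u) ≠ 0`, so some `ψ` has `ψ(b (x u) (x u)) = -1` for half of these
`u` (orthogonality); `iso2`, `shift` with `A = W`; for `a u = x u - c ∈ W` put `σ u = ψ(z u) ψ(b c (a u)) = ±1`; adjacency gives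
`σ u σ v = ψ(b c c) = -1`, so the `u` with the same `σ` are independent. -/
theorem twoB (b : X →+ X →+ X) (hs : ∀ x y, b x y = b y x) (hb : ∀ x y, b x y = 0 → x = 0 ∨ y = 0)
    (h2 : ∀ x : X, 2 • x = 0) {V : Type} [Fintype V] (G : SimpleGraph V) (x z : V → X)
    (hinj : Function.Injective fun v => (x v, z v)) (hG : ∀ u v, G.Adj u v → b (x u) (x v) = z u + z v) :
    ∃ I : Finset V, G.IsIndepSet (I : Set V) ∧
      (Fintype.card V : ℝ) / (100 * Real.sqrt (Fintype.card X)) ≤ I.card := by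
  have hself : ∀ a : X, a + a = 0 := fun a => by rw [← two_nsmul]; exact h2 a
  have hsq : ∀ (ψ : AddChar X ℂ) (a : X), ψ a * ψ a = 1 := fun ψ a => by
    rw [← AddChar.map_add_eq_mul, hself, AddChar.map_zero_eq_one]
  have hpm : ∀ (ψ : AddChar X ℂ) (a : X), ψ a = 1 ∨ ψ a = -1 := fun ψ a => mul_self_eq_one_iff.1 (hsq ψ a)
  have hq1 : (1 : ℝ) ≤ Fintype.card X := by
    have : 0 < Fintype.card X := Fintype.card_pos
    exact_mod_cast this
  have hs1 : (1 : ℝ) ≤ Real.sqrt (Fintype.card X) := by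
    rw [← Real.sqrt_one]
    exact Real.sqrt_le_sqrt hq1
  set s := Real.sqrt (Fintype.card X) with hsdef
  have hs2 : s ^ 2 = Fintype.card X := Real.sq_sqrt (by linarith)
  by_cases hcase : Fintype.card V ≤ 2 * (univ.filter fun u => x u = 0).card
  · refine ⟨univ.filter fun u => x u = 0, ?_, ?_⟩
    · intro u hu v hv huv hadj
      rw [Finset.mem_coe, Finset.mem_filter] at hu hv
      have h := hG u v hadj
      rw [hu.2, hv.2, map_zero] at h
      have h3 : z v = z u := by
        have h4 : z u + z v = z u + z u := by rw [← h, hself]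
        exact add_left_cancel h4
      exact huv (hinj (Prod.ext (hu.2.trans hv.2.symm) h3.symm))
    · rw [div_le_iff₀ (by positivity)]
      have h : (Fintype.card V : ℝ) ≤ 2 * ((univ.filter fun u => x u = 0).card : ℝ) := by exact_mod_cast hcase
      have h0 : (0 : ℝ) ≤ ((univ.filter fun u => x u = 0).card : ℝ) := Nat.cast_nonneg _
      nlinarith
  set V1 := univ.filter fun u => ¬ x u = 0 with hV1
  have hc := Finset.card_filter_add_card_filter_not (s := (univ : Finset V)) (fun u => x u = 0)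
  rw [Finset.card_univ, ← hV1] at hc
  obtain ⟨ψ, hψ⟩ := twoB_pick V1 (fun u => b (x u) (x u)) (fun u hu h0 => by
    rw [hV1, Finset.mem_filter] at hu
    rcases hb _ _ h0 with h | h
    · exact hu.2 h
    · exact hu.2 h) hpm
  obtain ⟨W, hW1, hW2⟩ := iso2 b hs hb h2 ψ
  obtain ⟨c, hcs⟩ := shift (V1.filter fun u => ψ (b (x u) (x u)) = -1) x (univ.filter fun a => a ∈ W)
  set U := V1.filter fun u => ψ (b (x u) (x u)) = -1 with hU
  set U' := U.filter fun u => x u - c ∈ univ.filter fun a => a ∈ W with hU'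
  have hWc : (univ.filter fun a => a ∈ W).card = Nat.card W := by
    rw [Nat.card_eq_fintype_card, ← Fintype.card_subtype]
  rw [hWc] at hcs
  have hmemU' : ∀ u ∈ U', ψ (b (x u) (x u)) = -1 ∧ x u - c ∈ W := by
    intro u hu
    rw [hU', Finset.mem_filter, hU, Finset.mem_filter] at hu
    exact ⟨hu.1.2, (Finset.mem_filter.1 hu.2).2⟩
  have hx : ∀ a a' : X, b (c + a) (c + a') = b c c + b c a' + b c a + b a a' := by
    intro a a'
    rw [map_add b c a, AddMonoidHom.add_apply, map_add, map_add, hs a c]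
    abel
  have hexp : ∀ u v : V, ψ (b (x u) (x v)) =
      ψ (b c c) * ψ (b c (x v - c)) * ψ (b c (x u - c)) * ψ (b (x u - c) (x v - c)) := by
    intro u v
    rw [← AddChar.map_add_eq_mul, ← AddChar.map_add_eq_mul, ← AddChar.map_add_eq_mul]
    have h := hx (x u - c) (x v - c)
    rw [add_sub_cancel, add_sub_cancel] at h
    rw [h]
  obtain ⟨I, hI1, hI2⟩ := twoB_half G U' (fun u => ψ (z u) * ψ (b c (x u - c))) (fun u _ => by
    rw [← AddChar.map_add_eq_mul]
    exact hpm _ _) (fun u hu v hv hadj => by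
    have hu' := hmemU' u hu
    have hv' := hmemU' v hv
    have e1 := hexp u v
    rw [hG u v hadj, AddChar.map_add_eq_mul, hW1 _ hu'.2 _ hv'.2, mul_one] at e1
    have e2 := hexp u u
    rw [hu'.1, hW1 _ hu'.2 _ hu'.2, mul_one, mul_assoc, hsq, mul_one] at e2
    have e3 := hsq ψ (b c (x u - c))
    have e4 := hsq ψ (b c (x v - c))
    calc ψ (z u) * ψ (b c (x u - c)) * (ψ (z v) * ψ (b c (x v - c)))
        = (ψ (z u) * ψ (z v)) * (ψ (b c (x u - c)) * ψ (b c (x v - c))) := by ring
      _ = (ψ (b c c) * ψ (b c (x v - c)) * ψ (b c (x u - c))) * (ψ (b c (x u - c)) * ψ (b c (x v - c))) := by rw [e1]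
      _ = ψ (b c c) * (ψ (b c (x v - c)) * ψ (b c (x v - c))) * (ψ (b c (x u - c)) * ψ (b c (x u - c))) := by ring
      _ = -1 := by rw [e3, e4, ← e2]; ring)
  refine ⟨I, hI1, ?_⟩
  rw [div_le_iff₀ (by positivity)]
  have g1 : (Fintype.card V : ℝ) ≤ 4 * (U.card : ℝ) := by
    have : Fintype.card V ≤ 4 * U.card := by omega
    exact_mod_cast this
  have g2 : (U.card : ℝ) * (Nat.card W : ℝ) ≤ s ^ 2 * (U'.card : ℝ) := by
    rw [hs2]
    exact_mod_cast hcs
  have g3 : s ≤ 2 * (Nat.card W : ℝ) := by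
    have h3 : s ^ 2 ≤ 2 * (Nat.card W : ℝ) ^ 2 := by
      rw [hs2]
      exact_mod_cast hW2
    nlinarith [Nat.cast_nonneg (α := ℝ) (Nat.card W)]
  have g4 : (U'.card : ℝ) ≤ 2 * (I.card : ℝ) := by exact_mod_cast hI2
  have g5 : (U.card : ℝ) ≤ 2 * s * (U'.card : ℝ) := by
    have h0 : (0 : ℝ) ≤ U.card := Nat.cast_nonneg _
    have h3 : (U.card : ℝ) * s ≤ (2 * s * (U'.card : ℝ)) * s := by nlinarith
    exact le_of_mul_le_mul_right h3 (by linarith)
  have h0 : (0 : ℝ) ≤ I.card := Nat.cast_nonneg _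
  nlinarith

open Classical in
/-- Part (B). -/
theorem partB (b : X →+ X →+ X) (hs : ∀ x y, b x y = b y x) (hb : ∀ x y, b x y = 0 → x = 0 ∨ y = 0)
    {V : Type} [Fintype V] (G : SimpleGraph V) (x z : V → X)
    (hinj : Function.Injective fun v => (x v, z v)) (hG : ∀ u v, G.Adj u v → b (x u) (x v) = z u + z v) :
    ∃ I : Finset V, G.IsIndepSet (I : Set V) ∧
      (Fintype.card V : ℝ) / (100 * Real.sqrt (Fintype.card X)) ≤ I.card := by
  rcases subsingleton_or_nontrivial X with hX | hX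
  · refine ⟨univ, fun u _ v _ huv => absurd (hinj (Subsingleton.elim _ _)) huv, ?_⟩
    have h1 : Fintype.card X = 1 := Fintype.card_eq_one_iff.2 ⟨0, fun y => Subsingleton.elim _ _⟩
    rw [h1, Finset.card_univ]
    simp only [Nat.cast_one, Real.sqrt_one, mul_one]
    apply div_le_self (Nat.cast_nonneg _)
    norm_num
  · rcases mkDat b hs hb with h2 | ⟨D, rfl⟩
    · exact twoB b hs hb h2 G x z hinj hG
    · exact D.oddB G x z hinj hG

/-- private to row orbC: at most two neighbours in the orbit -/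
private theorem orbC_deg {V : Type} (G : SimpleGraph V) (h4 : NoC4 G) {A : Type} [CommGroup A] [MulAction A V]
    (hA : ∀ (g : A) (u v : V), G.Adj u v ↔ G.Adj (g • u) (g • v)) (u : V) (g h : A)
    (hg : G.Adj u (g • u)) (hh : G.Adj u (h • u)) (hne : g • u ≠ h • u) : g • (h • u) = u := by
  by_contra hcon
  have e : g • (h • u) = h • (g • u) := by rw [← mul_smul, ← mul_smul, mul_comm]
  refine h4 u (g • u) (g • (h • u)) (h • u) (fun h' => hcon h'.symm) hne hg ?_ ?_ hh.symm
  · exact (hA g u (h • u)).mp hh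
  · rw [e]
    exact ((hA h u (g • u)).mp hg).symm

/-- row orbC. Let `a = v` and let `S = {w ∈ orbit : Adj v w}`. If `g • v`, `h • v` are in `S`, `g • v ≠ h • v`, and
`g • h • v ≠ v`, then `v, g • v, g • h • v, h • v` is a four-cycle (the group is abelian). So every vertex of the orbit has at
most two neighbours in the orbit (those of `v` are `g • v` and `g⁻¹ • v`); greedy. -/
theorem orbC {V : Type} [Finite V] (G : SimpleGraph V) (h4 : NoC4 G) {A : Type} [CommGroup A] [MulAction A V]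
    (hA : ∀ (g : A) (u v : V), G.Adj u v ↔ G.Adj (g • u) (g • v)) (v : V) :
    ∃ I : Finset V, G.IsIndepSet (I : Set V) ∧ Nat.card (MulAction.orbit A v) ≤ 3 * I.card := by
  classical
  haveI : Fintype V := Fintype.ofFinite V
  set O : Finset V := univ.filter (fun w => w ∈ MulAction.orbit A v) with hO
  have hcard : Nat.card (MulAction.orbit A v) = O.card := by
    rw [Nat.card_eq_fintype_card, Fintype.card_subtype]
  have hdeg : ∀ u ∈ O, (O.filter (fun w => G.Adj u w)).card ≤ 2 := by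
    intro u hu
    by_contra hcon
    rw [not_le, Finset.two_lt_card] at hcon
    obtain ⟨a, ha, b, hb, c, hc, hab, hac, hbc⟩ := hcon
    have huO : MulAction.orbit A u = MulAction.orbit A v := by
      rw [MulAction.orbit_eq_iff]
      exact (Finset.mem_filter.mp hu).2
    have key : ∀ w ∈ O.filter (fun w => G.Adj u w), ∃ g : A, g • u = w ∧ G.Adj u (g • u) := by
      intro w hw
      rw [Finset.mem_filter] at hw
      have h1 : w ∈ MulAction.orbit A v := (Finset.mem_filter.mp hw.1).2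
      rw [← huO] at h1
      obtain ⟨g, hg⟩ := h1
      have hg' : g • u = w := hg
      exact ⟨g, hg', by rw [hg']; exact hw.2⟩
    obtain ⟨g1, e1, j1⟩ := key a ha
    obtain ⟨g2, e2, j2⟩ := key b hb
    obtain ⟨g3, e3, j3⟩ := key c hc
    have k1 := orbC_deg G h4 hA u g1 g2 j1 j2 (by rw [e1, e2]; exact hab)
    have k2 := orbC_deg G h4 hA u g1 g3 j1 j3 (by rw [e1, e3]; exact hac)
    apply hbc
    rw [← e2, ← e3]
    exact MulAction.injective g1 (k1.trans k2.symm)
  obtain ⟨I, hI, hmax⟩ := Finset.exists_max_image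
    (O.powerset.filter (fun I : Finset V => G.IsIndepSet (I : Set V))) Finset.card
    ⟨∅, by rw [Finset.mem_filter]; exact ⟨Finset.empty_mem_powerset _, by simp [SimpleGraph.IsIndepSet]⟩⟩
  rw [Finset.mem_filter, Finset.mem_powerset] at hI
  refine ⟨I, hI.2, ?_⟩
  rw [hcard]
  have hsub : O ⊆ I ∪ I.biUnion (fun u => O.filter (fun w => G.Adj u w)) := by
    intro w hw
    rw [Finset.mem_union]
    by_contra hcon
    rw [not_or] at hcon
    obtain ⟨hwI, hwN⟩ := hcon
    have hnadj : ∀ u ∈ I, ¬ G.Adj u w := by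
      intro u hu hadj
      apply hwN
      rw [Finset.mem_biUnion]
      exact ⟨u, hu, Finset.mem_filter.mpr ⟨hw, hadj⟩⟩
    have hins : insert w I ∈ O.powerset.filter (fun I : Finset V => G.IsIndepSet (I : Set V)) := by
      rw [Finset.mem_filter, Finset.mem_powerset]
      refine ⟨Finset.insert_subset hw hI.1, ?_⟩
      intro a ha b hb hab
      rw [Finset.mem_coe, Finset.mem_insert] at ha hb
      rcases ha with rfl | ha
      · rcases hb with rfl | hb
        · exact absurd rfl hab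
        · exact fun hadj => hnadj b hb hadj.symm
      · rcases hb with rfl | hb
        · exact hnadj a ha
        · exact hI.2 ha hb hab
    have hle := hmax _ hins
    rw [Finset.card_insert_of_notMem hwI] at hle
    omega
  calc O.card ≤ (I ∪ I.biUnion (fun u => O.filter (fun w => G.Adj u w))).card := Finset.card_le_card hsub
    _ ≤ I.card + (I.biUnion (fun u => O.filter (fun w => G.Adj u w))).card := Finset.card_union_le _ _
    _ ≤ I.card + I.card * 2 := by
        have := Finset.card_biUnion_le_card_mul I (fun u => O.filter (fun w => G.Adj u w)) 2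
          (fun u hu => hdeg u (hI.1 hu))
        omega
    _ = 3 * I.card := by ring

end Pool.Agent.C4f
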