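import Pool.Agent.C4f.Defs

/-! # Character sums and isotropic subgroups -/

namespace Pool.Agent.C4f

open Finset

variable {X : Type} [AddCommGroup X] [Fintype X]

/-- row bil_sum. `y ↦ b x y` is injective, hence bijective; then the sum is that of the nontrivial `ψ`. -/
theorem Dat.bil_sum (D : Dat X) {ψ : AddChar X ℂ} (hψ : ψ ≠ 1) {x : X} (hx : x ≠ 0) :
    ∑ y : X, ψ (D.b x y) = 0 := by
  have hinj : Function.Injective (D.b x) := by
    rw [injective_iff_map_eq_zero]
    intro y hy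
    exact (D.nz x y hy).resolve_left hx
  have hbij : Function.Bijective (D.b x) := Finite.injective_iff_bijective.1 hinj
  rw [hbij.sum_comp (fun z => ψ z)]
  exact AddChar.sum_eq_zero_of_ne_one hψ

private theorem norm_S_F0 (D : Dat X) : D.F 0 = 0 := by
  have h := D.F_nsmul 0 (0 : X)
  rw [zero_smul, Nat.zero_pow (by norm_num), zero_smul] at h
  exact h

/-- row norm_S. `S * conj S = ∑_{y,d} ψ(F(y+d) - F y) = ∑_d ψ(F d) ∑_y ψ(b y d) = q`. Uses `bil_sum`, `F_add`. -/
theorem Dat.norm_S (D : Dat X) {ψ : AddChar X ℂ} (hψ : ψ ≠ 1) : ‖D.S ψ‖ ^ 2 = Fintype.card X := by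
  classical
  have h1 : D.S ψ * (starRingEnd ℂ) (D.S ψ) = (Fintype.card X : ℂ) := by
    have h2 : (starRingEnd ℂ) (D.S ψ) = ∑ y : X, ψ (-(D.F y)) := by
      rw [Dat.S, map_sum]
      exact Finset.sum_congr rfl fun y _ => (AddChar.map_neg_eq_conj ψ _).symm
    have h3 : D.S ψ * (starRingEnd ℂ) (D.S ψ) = ∑ y : X, ∑ d : X, ψ (D.F d) * ψ (D.b d y) := by
      rw [h2, Finset.mul_sum]
      refine Finset.sum_congr rfl fun y _ => ?_
      rw [Dat.S, Finset.sum_mul, ← Equiv.sum_comp (Equiv.addRight y)]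
      refine Finset.sum_congr rfl fun d _ => ?_
      rw [← AddChar.map_add_eq_mul, ← AddChar.map_add_eq_mul, Equiv.coe_addRight, D.F_add]
      congr 1
      abel
    rw [h3, Finset.sum_comm, Finset.sum_eq_single (0 : X)]
    · rw [norm_S_F0, AddChar.map_zero_eq_one]
      simp
    · intro d _ hd
      rw [← Finset.mul_sum, D.bil_sum hψ hd, mul_zero]
    · intro h
      exact absurd (Finset.mem_univ _) h
  rw [Complex.mul_conj, Complex.normSq_eq_norm_sq] at h1
  exact_mod_cast h1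

/-- row card_perp. Double count `∑_{w ∈ W} ∑_x ψ(b w x)`: the inner sum over x is q for w = 0, else 0; the sum over `w ∈ W`
of the character `w ↦ ψ(b w x)` is `|W|` if x is in perp, else 0. -/
theorem Dat.card_perp (D : Dat X) {ψ : AddChar X ℂ} (hψ : ψ ≠ 1) (W : AddSubgroup X) :
    Nat.card W * Nat.card (D.perp ψ W) = Fintype.card X := by
  classical
  have hin : ∀ x : X, ∑ w : W, ψ (D.b (w : X) x) = if x ∈ D.perp ψ W then (Fintype.card W : ℂ) else 0 := by
    intro x
    let χ : AddChar W ℂ := ψ.compAddMonoidHom (((AddMonoidHom.eval x).comp D.b).comp W.subtype)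
    have hχ : ∀ w : W, χ w = ψ (D.b (w : X) x) := fun w => rfl
    have h1 := AddChar.sum_eq_ite χ
    have h2 : (χ = 0) ↔ x ∈ D.perp ψ W := by
      constructor
      · intro h w hw
        have h3 : χ ⟨w, hw⟩ = 1 := by rw [h]; rfl
        exact h3
      · intro h
        ext w
        rw [hχ, h w w.2]
        rfl
    rw [← Finset.sum_congr rfl fun w _ => hχ w, h1]
    by_cases hx : x ∈ D.perp ψ W
    · rw [if_pos (h2.2 hx), if_pos hx]
    · rw [if_neg (fun h => hx (h2.1 h)), if_neg hx]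
  have hleft : ∑ x : X, ∑ w : W, ψ (D.b (w : X) x) = (Fintype.card (D.perp ψ W) : ℂ) * Fintype.card W := by
    rw [Finset.sum_congr rfl fun x _ => hin x, ← Finset.sum_filter, Finset.sum_const, nsmul_eq_mul]
    congr 2
    exact (Fintype.card_subtype (fun x => x ∈ D.perp ψ W)).symm
  have hright : ∑ x : X, ∑ w : W, ψ (D.b (w : X) x) = (Fintype.card X : ℂ) := by
    rw [Finset.sum_comm, Finset.sum_eq_single (0 : W)]
    · simp
    · intro w _ hw
      exact D.bil_sum hψ (fun h => hw (Subtype.ext h))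
    · intro h
      exact absurd (Finset.mem_univ _) h
  have h3 := hleft.symm.trans hright
  have h4 : Fintype.card (D.perp ψ W) * Fintype.card W = Fintype.card X := by exact_mod_cast h3
  rw [Nat.card_eq_fintype_card, Nat.card_eq_fintype_card, mul_comm]
  exact h4

/-- row iso_F. `ψ(F w)^2 = ψ(b w w) = 1` and `ψ(F w)^p = ψ(p • F w) = 1`, `p` odd. -/
theorem Dat.iso_F (D : Dat X) {ψ : AddChar X ℂ} {w : X} (hw : ψ (D.b w w) = 1) : ψ (D.F w) = 1 := by
  have h2 : ψ (D.F w) ^ 2 = 1 := by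
    rw [← AddChar.map_nsmul_eq_pow, D.two_F, hw]
  have hp : ψ (D.F w) ^ D.p = 1 := by
    rw [← AddChar.map_nsmul_eq_pow, D.exp, AddChar.map_zero_eq_one]
  have hodd : D.p % 2 = 1 := D.hp.eq_two_or_odd.resolve_left D.hodd
  have h3 : D.p = 2 * (D.p / 2) + 1 := by omega
  rw [h3, pow_succ, pow_mul, h2, one_pow, one_mul] at hp
  exact hp

open Classical in
/-- row S_perp. `|W| S = ∑_{w ∈ W} ∑_x ψ(F(x+w)) = ∑_x ψ(F x) ∑_{w ∈ W} ψ(b x w)` (`iso_F`), inner sum `|W|` or `0`. -/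
theorem Dat.S_perp (D : Dat X) {ψ : AddChar X ℂ} {W : AddSubgroup X} (hW : D.Iso ψ W) :
    D.S ψ = ∑ x ∈ univ.filter (fun x => x ∈ D.perp ψ W), ψ (D.F x) := by
  have hin : ∀ x : X, ∑ w : W, ψ (D.b x w) = if x ∈ D.perp ψ W then (Fintype.card W : ℂ) else 0 := by
    intro x
    split_ifs with h
    · have h1 : ∀ w : W, ψ (D.b x w) = 1 := fun w => by
        rw [D.symm]
        exact h w w.2
      simp [h1]
    · have h2 : ∃ w0 ∈ W, ψ (D.b w0 x) ≠ 1 := by
        by_contra hc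
        push Not at hc
        exact h hc
      obtain ⟨w0, hw0, hne⟩ := h2
      rw [D.symm] at hne
      have h3 : ∑ w : W, ψ (D.b x w) = (∑ w : W, ψ (D.b x w)) * ψ (D.b x w0) := by
        rw [Finset.sum_mul, ← Equiv.sum_comp (Equiv.addRight (⟨w0, hw0⟩ : W)) (fun w : W => ψ (D.b x w))]
        refine Finset.sum_congr rfl fun w _ => ?_
        rw [← AddChar.map_add_eq_mul, ← map_add]
        rfl
      have h4 : (∑ w : W, ψ (D.b x w)) * (1 - ψ (D.b x w0)) = 0 := by
        rw [mul_sub, mul_one, ← h3, sub_self]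
      exact (mul_eq_zero.1 h4).resolve_right (sub_ne_zero.2 (Ne.symm hne))
  have hc : (Fintype.card W : ℂ) ≠ 0 := by
    exact_mod_cast Fintype.card_ne_zero
  have h5 : (Fintype.card W : ℂ) * D.S ψ = ∑ _w : W, D.S ψ := by
    simp
  have h6 : ∀ w : W, D.S ψ = ∑ x : X, ψ (D.F x) * ψ (D.b x w) := by
    intro w
    unfold Dat.S
    rw [← Equiv.sum_comp (Equiv.addRight (w : X)) (fun x => ψ (D.F x))]
    refine Finset.sum_congr rfl fun x _ => ?_
    rw [Equiv.coe_addRight, D.F_add, AddChar.map_add_eq_mul, AddChar.map_add_eq_mul,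
      D.iso_F (hW w w.2 w w.2), mul_one]
  have h7 : (Fintype.card W : ℂ) * D.S ψ =
      (Fintype.card W : ℂ) * ∑ x ∈ univ.filter (fun x => x ∈ D.perp ψ W), ψ (D.F x) := by
    rw [h5, Finset.sum_congr rfl fun w _ => h6 w, Finset.sum_comm]
    simp only [← Finset.mul_sum, hin]
    rw [Finset.sum_filter, Finset.mul_sum]
    refine Finset.sum_congr rfl fun x _ => ?_
    split_ifs
    · ring
    · ring
  exact mul_left_cancel₀ hc h7

/-- row mem_of_max. The subgroup `W ⊔ zmultiples x` is isotropic (`ψ(b x x) = ψ(F x)^2 = 1`). -/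
theorem Dat.mem_of_max (D : Dat X) {ψ : AddChar X ℂ} {W : AddSubgroup X} (hW : D.MaxIso ψ W) {x : X}
    (hx : x ∈ D.perp ψ W) (h1 : ψ (D.F x) = 1) : x ∈ W := by
  have hxx : ψ (D.b x x) = 1 := by
    rw [← D.two_F, AddChar.map_nsmul_eq_pow, h1, one_pow]
  have hz : ∀ (k : ℤ) (y : X), ψ y = 1 → ψ (k • y) = 1 := by
    intro k y hy
    rw [AddChar.map_zsmul_eq_zpow, hy, one_zpow]
  have hiso : D.Iso ψ (W ⊔ AddSubgroup.zmultiples x) := by
    intro u hu u' hu'
    obtain ⟨w, hw, v, hv, rfl⟩ := AddSubgroup.mem_sup.1 hu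
    obtain ⟨w', hw', v', hv', rfl⟩ := AddSubgroup.mem_sup.1 hu'
    obtain ⟨k, rfl⟩ := AddSubgroup.mem_zmultiples_iff.1 hv
    obtain ⟨k', rfl⟩ := AddSubgroup.mem_zmultiples_iff.1 hv'
    have e1 : ψ (D.b w w') = 1 := hW.1 w hw w' hw'
    have e2 : ψ (D.b w (k' • x)) = 1 := by
      rw [map_zsmul]
      exact hz k' _ (hx w hw)
    have e3 : ψ (D.b (k • x) w') = 1 := by
      rw [D.symm, map_zsmul]
      exact hz k _ (hx w' hw')
    have e4 : ψ (D.b (k • x) (k' • x)) = 1 := by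
      have h : D.b (k • x) (k' • x) = k' • k • D.b x x := by
        rw [map_zsmul (D.b (k • x)), D.symm (k • x) x, map_zsmul (D.b x)]
      rw [h]
      exact hz k' _ (hz k _ hxx)
    have h5 : D.b (w + k • x) (w' + k' • x) =
        D.b w w' + D.b w (k' • x) + (D.b (k • x) w' + D.b (k • x) (k' • x)) := by
      rw [map_add D.b, AddMonoidHom.add_apply, map_add (D.b w), map_add (D.b (k • x))]
    rw [h5, AddChar.map_add_eq_mul, AddChar.map_add_eq_mul, AddChar.map_add_eq_mul, e1, e2, e3, e4]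
    norm_num
  have h2 := hW.2 _ le_sup_left hiso
  rw [← h2]
  exact (le_sup_right : AddSubgroup.zmultiples x ≤ W ⊔ AddSubgroup.zmultiples x) (AddSubgroup.mem_zmultiples x)

/-- row exists_max. Finite group: an isotropic subgroup of maximal cardinality (`⊥` is isotropic). -/
theorem Dat.exists_max (D : Dat X) (ψ : AddChar X ℂ) : ∃ W, D.MaxIso ψ W := by
  have hf : {W : AddSubgroup X | D.Iso ψ W}.Finite := Set.toFinite _
  have hne : {W : AddSubgroup X | D.Iso ψ W}.Nonempty := by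
    refine ⟨⊥, fun w hw w' _ => ?_⟩
    rw [AddSubgroup.mem_bot.1 hw, map_zero, AddMonoidHom.zero_apply, AddChar.map_zero_eq_one]
  obtain ⟨W, hW⟩ := hf.exists_maximal hne
  exact ⟨W, hW.1, fun W' hle hiso => le_antisymm (hW.2 hiso hle) hle⟩

private theorem max_pow_key (D : Dat X) {ψ : AddChar X ℂ} {t : ℕ} (ht : t ∈ Finset.Ico 1 D.p)
    (y : X) : (ψ ^ t) y = 1 ↔ ψ y = 1 := by
  rw [AddChar.pow_apply]
  constructor
  · intro h
    have h1 : ψ y ^ D.p = 1 := by
      rw [← AddChar.map_nsmul_eq_pow, D.exp y, AddChar.map_zero_eq_one]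
    have h2 : Nat.gcd t D.p = 1 := by
      obtain ⟨h3, h4⟩ := Finset.mem_Ico.1 ht
      exact (Nat.coprime_of_lt_prime (by omega) h4 D.hp).symm
    have h5 := pow_gcd_eq_one.2 ⟨h, h1⟩
    rwa [h2, pow_one] at h5
  · intro h
    rw [h, one_pow]

/-- row max_pow. For `t` prime to `p`: `ψ(y)^t = 1 ↔ ψ(y) = 1` since `ψ(y)^p = 1`. -/
theorem Dat.max_pow (D : Dat X) {ψ : AddChar X ℂ} {W : AddSubgroup X} (hW : D.MaxIso ψ W) {t : ℕ}
    (ht : t ∈ Finset.Ico 1 D.p) : D.MaxIso (ψ ^ t) W ∧ D.perp (ψ ^ t) W = D.perp ψ W ∧ (ψ ≠ 1 → ψ ^ t ≠ 1) := by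
  have key := max_pow_key D (ψ := ψ) ht
  have hiso : ∀ W' : AddSubgroup X, D.Iso (ψ ^ t) W' ↔ D.Iso ψ W' := by
    intro W'
    constructor
    · intro h w hw w' hw'
      exact (key _).1 (h w hw w' hw')
    · intro h w hw w' hw'
      exact (key _).2 (h w hw w' hw')
  refine ⟨⟨(hiso W).2 hW.1, fun W' hle h => hW.2 W' hle ((hiso W').1 h)⟩, ?_, ?_⟩
  · ext x
    show (∀ w ∈ W, (ψ ^ t) (D.b w x) = 1) ↔ (∀ w ∈ W, ψ (D.b w x) = 1)
    constructor
    · intro h w hw
      exact (key _).1 (h w hw)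
    · intro h w hw
      exact (key _).2 (h w hw)
  · intro hne h
    apply hne
    ext y
    rw [AddChar.one_apply]
    apply (key y).1
    rw [h, AddChar.one_apply]

open Classical in
/-- row sum_pow. For `x` in perp, `z = ψ(F x)` has `z^p = 1`, the sum of `z^t` is `p` if `z = 1`, that is `x ∈ W` (`mem_of_max`,
`iso_F`), else 0. -/
theorem Dat.sum_pow (D : Dat X) {ψ : AddChar X ℂ} {W : AddSubgroup X} (hW : D.MaxIso ψ W) :
    ∑ t ∈ Finset.range D.p, ∑ x ∈ univ.filter (fun x => x ∈ D.perp ψ W), ψ (D.F x) ^ t =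
      (D.p : ℂ) * (Nat.card W : ℂ) := by
  rw [Finset.sum_comm]
  have h1 : ∀ x ∈ univ.filter (fun x => x ∈ D.perp ψ W),
      ∑ t ∈ Finset.range D.p, ψ (D.F x) ^ t = if x ∈ W then (D.p : ℂ) else 0 := by
    intro x hx
    have hx' : x ∈ D.perp ψ W := (Finset.mem_filter.1 hx).2
    by_cases hxW : x ∈ W
    · rw [if_pos hxW, D.iso_F (hW.1 x hxW x hxW)]
      simp
    · rw [if_neg hxW]
      have hz : ψ (D.F x) ≠ 1 := fun h => hxW (D.mem_of_max hW hx' h)
      have hzp : ψ (D.F x) ^ D.p = 1 := by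
        rw [← AddChar.map_nsmul_eq_pow, D.exp, AddChar.map_zero_eq_one]
      have h2 := mul_geom_sum (ψ (D.F x)) D.p
      rw [hzp, sub_self] at h2
      exact (mul_eq_zero.1 h2).resolve_left (sub_ne_zero.2 hz)
  rw [Finset.sum_congr rfl h1, ← Finset.sum_filter, Finset.filter_filter, Finset.sum_const, nsmul_eq_mul, mul_comm]
  congr 1
  have h3 : (univ.filter fun x => x ∈ D.perp ψ W ∧ x ∈ W) = univ.filter fun x => x ∈ W := by
    ext x
    simp only [Finset.mem_filter, Finset.mem_univ, true_and]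
    exact ⟨fun h => h.2, fun h => ⟨fun w hw => hW.1 w hw x h, h⟩⟩
  rw [h3, Nat.card_eq_fintype_card, ← Fintype.card_subtype]

/-- row sum_S_pow. From `sum_pow` (the term t = 0 is `card perp`), `S_perp` for `ψ^t` and `max_pow`. -/
theorem Dat.sum_S_pow (D : Dat X) {ψ : AddChar X ℂ} {W : AddSubgroup X} (hW : D.MaxIso ψ W) :
    ∑ t ∈ Finset.Ico 1 D.p, D.S (ψ ^ t) = (D.p : ℂ) * (Nat.card W : ℂ) - (Nat.card (D.perp ψ W) : ℂ) := by
  classical
  have h1 : ∀ t ∈ Finset.Ico 1 D.p, D.S (ψ ^ t) =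
      ∑ x ∈ univ.filter (fun x => x ∈ D.perp ψ W), ψ (D.F x) ^ t := by
    intro t ht
    obtain ⟨hm, hp, -⟩ := D.max_pow hW ht
    rw [D.S_perp hm.1]
    refine Finset.sum_congr ?_ ?_
    · ext x
      simp only [mem_filter, mem_univ, true_and]
      rw [hp]
    · intro x _
      rw [AddChar.pow_apply]
  rw [Finset.sum_congr rfl h1]
  have h2 := D.sum_pow hW
  have hp0 : 0 < D.p := D.hp.pos
  have h3 : Finset.range D.p = insert 0 (Finset.Ico 1 D.p) := by
    ext t
    simp only [mem_range, mem_insert, mem_Ico]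
    omega
  have h4 : (0 : ℕ) ∉ Finset.Ico 1 D.p := by simp
  rw [h3, Finset.sum_insert h4] at h2
  have h5 : ∑ x ∈ univ.filter (fun x => x ∈ D.perp ψ W), ψ (D.F x) ^ 0 = (Nat.card (D.perp ψ W) : ℂ) := by
    simp only [pow_zero, Finset.sum_const, nsmul_eq_mul, mul_one]
    congr 1
    rw [Nat.card_eq_fintype_card, Fintype.card_subtype]
  rw [h5] at h2
  linear_combination h2

/-- row perp_le. With s = sqrt q, w = card W, y = card perp, w y = s^2: `y - p w ≤ (p-1) s` (`sum_S_pow`, `norm_S`), so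
`(y - p s)(y + s) ≤ 0`, `y ≤ p s`, `y^2 ≤ p^2 w y`. -/
theorem Dat.perp_le (D : Dat X) {ψ : AddChar X ℂ} (hψ : ψ ≠ 1) {W : AddSubgroup X} (hW : D.MaxIso ψ W) :
    Nat.card (D.perp ψ W) ≤ D.p ^ 2 * Nat.card W := by
  have hc := D.card_perp hψ W
  have hsum := D.sum_S_pow hW
  have hp1 : 1 ≤ D.p := D.hp.one_lt.le
  generalize hw : Nat.card W = w at hc hsum ⊢
  generalize hy : Nat.card (D.perp ψ W) = y at hc hsum ⊢
  have hq0 : (0 : ℝ) ≤ (Fintype.card X : ℝ) := Nat.cast_nonneg _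
  set s : ℝ := Real.sqrt (Fintype.card X) with hs
  have hs2 : s ^ 2 = (w : ℝ) * y := by
    rw [hs, Real.sq_sqrt hq0]
    exact_mod_cast hc.symm
  have hs0 : 0 ≤ s := Real.sqrt_nonneg _
  have hn : ∀ t ∈ Finset.Ico 1 D.p, ‖D.S (ψ ^ t)‖ = s := by
    intro t ht
    have h := D.norm_S ((D.max_pow hW ht).2.2 hψ)
    rw [hs, ← h, Real.sqrt_sq (norm_nonneg _)]
  have h1 : ‖(D.p : ℂ) * (w : ℂ) - (y : ℂ)‖ ≤ ((D.p : ℝ) - 1) * s := by
    rw [← hsum]
    refine (norm_sum_le _ _).trans ?_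
    rw [Finset.sum_congr rfl hn, Finset.sum_const, Nat.card_Ico, nsmul_eq_mul, Nat.cast_sub hp1, Nat.cast_one]
  have h2 : (D.p : ℂ) * (w : ℂ) - (y : ℂ) = (((D.p : ℝ) * w - y : ℝ) : ℂ) := by push_cast; ring
  rw [h2, Complex.norm_real, Real.norm_eq_abs] at h1
  have h3 : (y : ℝ) - D.p * w ≤ ((D.p : ℝ) - 1) * s := by
    have := neg_abs_le ((D.p : ℝ) * w - y)
    linarith
  have hy0 : (0 : ℝ) ≤ y := Nat.cast_nonneg _
  have hpR : (1 : ℝ) ≤ D.p := by exact_mod_cast hp1
  rcases Nat.eq_zero_or_pos y with h0 | hypos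
  · rw [h0]; exact Nat.zero_le _
  have hy1 : (0 : ℝ) < y := by exact_mod_cast hypos
  have h4 : ((y : ℝ) - D.p * s) * (y + s) ≤ 0 := by
    have h5 := mul_le_mul_of_nonneg_right h3 hy0
    nlinarith
  have h5 : (y : ℝ) ≤ D.p * s := by
    by_contra h
    push Not at h
    have : 0 < ((y : ℝ) - D.p * s) * (y + s) := mul_pos (by linarith) (by linarith)
    linarith
  have h6 : (y : ℝ) ^ 2 ≤ (D.p : ℝ) ^ 2 * (w * y) := by
    rw [← hs2, ← mul_pow]
    exact pow_le_pow_left₀ hy0 h5 2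
  have h7 : (y : ℝ) ≤ (D.p : ℝ) ^ 2 * w := by
    have h8 : (y : ℝ) * y ≤ ((D.p : ℝ) ^ 2 * w) * y := by nlinarith
    exact le_of_mul_le_mul_right h8 hy1
  exact_mod_cast h7

/-- row case0. `perp = W` (a subgroup containing `W` with the same cardinality), `S = ∑_{W} 1 = |W|`, `|W|^2 = q`; and `W` is the
set `A` in `Good`. -/
theorem Dat.case0 (D : Dat X) {ψ : AddChar X ℂ} (hψ : ψ ≠ 1) {W : AddSubgroup X} (hW : D.MaxIso ψ W)
    (h : Nat.card (D.perp ψ W) = Nat.card W) : D.S ψ = (Real.sqrt (Fintype.card X) : ℂ) ∧ D.Good ψ := by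
  classical
  have hle : W ≤ D.perp ψ W := fun w hw w' hw' => hW.1 w' hw' w hw
  have hEq : W = D.perp ψ W := AddSubgroup.eq_of_le_of_card_ge hle h.le
  have hq : Nat.card W * Nat.card W = Fintype.card X := by
    have h1 := D.card_perp hψ W
    rwa [h] at h1
  have hF : ∀ w ∈ W, ψ (D.F w) = 1 := fun w hw => D.iso_F (hW.1 w hw w hw)
  have hcard : (univ.filter (fun x => x ∈ W)).card = Nat.card W := by
    rw [Nat.card_eq_fintype_card, Fintype.card_subtype]
  refine ⟨?_, univ.filter (fun x => x ∈ W), ?_, ?_⟩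
  · rw [D.S_perp hW.1, ← hEq]
    have h2 : ∑ x ∈ univ.filter (fun x => x ∈ W), ψ (D.F x) =
        ∑ x ∈ univ.filter (fun x => x ∈ W), (1 : ℂ) :=
      Finset.sum_congr rfl fun x hx => hF x (Finset.mem_filter.1 hx).2
    have h3 : Real.sqrt (Fintype.card X) = (Nat.card W : ℝ) := by
      rw [← hq]
      push_cast
      exact Real.sqrt_mul_self (Nat.cast_nonneg _)
    rw [h3]
    have h4 : ∑ x ∈ univ.filter (fun x => x ∈ W), ψ (D.F x) = (Nat.card W : ℂ) := by
      rw [h2, Finset.sum_const, hcard, nsmul_eq_mul, mul_one]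
    convert h4 using 1
    push_cast
    rfl
  · rw [hcard, ← hq]
    push_cast
    nlinarith [sq_nonneg (Nat.card W : ℝ)]
  · intro a ha a' ha'
    rw [Finset.mem_filter] at ha ha'
    rw [hF _ (W.sub_mem ha.2 ha'.2)]
    simp

/-- row case2. Here `sqrt q = p |W|`; the `p - 1` numbers `S(ψ^t)` have modulus `sqrt q` and sum `-(p-1) p |W|`
(`sum_S_pow`), so each of them is `-sqrt q` (real parts). -/
theorem Dat.case2 (D : Dat X) {ψ : AddChar X ℂ} (hψ : ψ ≠ 1) {W : AddSubgroup X} (hW : D.MaxIso ψ W)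
    (h : Nat.card (D.perp ψ W) = D.p ^ 2 * Nat.card W) : D.S ψ = -(Real.sqrt (Fintype.card X) : ℂ) := by
  have hp := D.hp
  have hq : (Fintype.card X : ℝ) = ((D.p : ℝ) * (Nat.card W : ℝ)) ^ 2 := by
    have h1 := D.card_perp hψ W
    rw [h] at h1
    rw [← h1]
    push_cast
    ring
  have hs0 : 0 ≤ (D.p : ℝ) * (Nat.card W : ℝ) := by positivity
  have hsq : Real.sqrt (Fintype.card X) = (D.p : ℝ) * (Nat.card W : ℝ) := by
    rw [hq, Real.sqrt_sq hs0]
  have hnorm : ∀ t ∈ Finset.Ico 1 D.p, ‖D.S (ψ ^ t)‖ = (D.p : ℝ) * (Nat.card W : ℝ) := by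
    intro t ht
    have h1 := D.norm_S ((D.max_pow hW ht).2.2 hψ)
    rw [hq] at h1
    exact (sq_eq_sq₀ (norm_nonneg _) hs0).1 h1
  have hsum := D.sum_S_pow hW
  rw [h] at hsum
  have hre : ∑ t ∈ Finset.Ico 1 D.p, ((D.S (ψ ^ t)).re + (D.p : ℝ) * (Nat.card W : ℝ)) = 0 := by
    have e1 : (D.p : ℂ) * (Nat.card W : ℂ) - ((D.p ^ 2 * Nat.card W : ℕ) : ℂ) =
        (((D.p : ℝ) * (Nat.card W : ℝ) - (D.p : ℝ) ^ 2 * (Nat.card W : ℝ) : ℝ) : ℂ) := by
      push_cast
      ring
    rw [Finset.sum_add_distrib, ← Complex.re_sum, hsum, e1, Complex.ofReal_re, Finset.sum_const,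
      Nat.card_Ico, nsmul_eq_mul, Nat.cast_sub hp.one_lt.le]
    push_cast
    ring
  have hnn : ∀ t ∈ Finset.Ico 1 D.p, 0 ≤ (D.S (ψ ^ t)).re + (D.p : ℝ) * (Nat.card W : ℝ) := by
    intro t ht
    have h1 := Complex.abs_re_le_norm (D.S (ψ ^ t))
    rw [hnorm t ht] at h1
    linarith [(abs_le.1 h1).1]
  have hmem : 1 ∈ Finset.Ico 1 D.p := Finset.mem_Ico.2 ⟨le_rfl, hp.one_lt⟩
  have h1 := (Finset.sum_eq_zero_iff_of_nonneg hnn).1 hre 1 hmem
  have h2 := hnorm 1 hmem
  rw [pow_one] at h1 h2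
  have h3 : (D.S ψ).re = -((D.p : ℝ) * (Nat.card W : ℝ)) := by linarith
  have h4 : (D.S ψ).im = 0 := by
    have h5 : ‖D.S ψ‖ ^ 2 = (D.S ψ).re * (D.S ψ).re + (D.S ψ).im * (D.S ψ).im := by
      rw [← Complex.normSq_eq_norm_sq, Complex.normSq_apply]
    rw [h2, h3] at h5
    have h6 : (D.S ψ).im * (D.S ψ).im = 0 := by linarith
    exact mul_self_eq_zero.1 h6
  rw [hsq]
  apply Complex.ext
  · rw [h3]
    simp
  · rw [h4]
    simp

private theorem gauss_twist_sum (p : ℕ) [Fact p.Prime] (hp2 : p ≠ 2) (f : ZMod p → ℂ) :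
    ∑ n : ZMod p, f (n ^ 2) = ∑ x : ZMod p, ((quadraticChar (ZMod p) x : ℤ) + 1 : ℂ) * f x := by
  classical
  have hr : ringChar (ZMod p) ≠ 2 := by
    rw [ZMod.ringChar_zmod_n]
    exact hp2
  rw [← Finset.sum_fiberwise (s := univ) (g := fun n : ZMod p => n ^ 2) (f := fun n => f (n ^ 2))]
  refine Finset.sum_congr rfl fun x _ => ?_
  have h1 : ∀ n ∈ univ.filter (fun n : ZMod p => n ^ 2 = x), f (n ^ 2) = f x := by
    intro n hn
    rw [(mem_filter.1 hn).2]
  rw [Finset.sum_congr rfl h1, Finset.sum_const, nsmul_eq_mul]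
  have h2 := quadraticChar_card_sqrts hr x
  have h3 : ({n : ZMod p | n ^ 2 = x} : Set (ZMod p)).toFinset =
      univ.filter (fun n : ZMod p => n ^ 2 = x) := by
    ext n
    simp
  rw [h3] at h2
  have h4 : ((univ.filter (fun n : ZMod p => n ^ 2 = x)).card : ℂ) =
      ((quadraticChar (ZMod p) x : ℤ) + 1 : ℂ) := by
    have h5 := congrArg (fun z : ℤ => (z : ℂ)) h2
    push_cast at h5
    exact h5
  rw [h4]

private theorem gauss_twist_zero (p : ℕ) [Fact p.Prime] : ∑ x : ZMod p, ee p x = 0 := by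
  have h : (ZMod.stdAddChar (N := p)) ≠ 1 := by
    intro h
    have h1 := ZMod.injective_stdAddChar (N := p)
    have h2 : (ZMod.stdAddChar (N := p)) 1 = (ZMod.stdAddChar (N := p)) 0 := by
      rw [h]
      simp
    exact one_ne_zero (h1 h2)
  exact AddChar.sum_eq_zero_of_ne_one h

/-- row gauss_twist. If `a` is a square, substitute `n ↦ c n`. If not: every residue is taken twice by `n^2` and `a n^2`
together, so `gs + ∑ ee(a n^2) = 2 ∑ ee = 0`. -/
theorem gauss_twist (p : ℕ) [Fact p.Prime] (hp2 : p ≠ 2) (a : ZMod p) (ha : a ≠ 0) :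
    (∃ c : ZMod p, a * c ^ 2 = 1 ∧ ∑ n : ZMod p, ee p (a * n ^ 2) = gs p) ∨
      ∑ n : ZMod p, ee p (a * n ^ 2) = -gs p := by
  by_cases hsq : IsSquare a
  · left
    obtain ⟨d, hd⟩ := hsq
    have hd0 : d ≠ 0 := by
      rintro rfl
      exact ha (by rw [hd, mul_zero])
    refine ⟨d⁻¹, ?_, ?_⟩
    · rw [hd]
      field_simp
    · unfold gs
      rw [← Equiv.sum_comp (Equiv.mulLeft₀ d hd0) (fun m : ZMod p => ee p (m ^ 2))]
      refine Finset.sum_congr rfl fun n _ => ?_
      congr 1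
      rw [Equiv.mulLeft₀_apply, hd]
      ring
  · right
    have hr : ringChar (ZMod p) ≠ 2 := by
      rw [ZMod.ringChar_zmod_n]
      exact hp2
    have hχ : quadraticChar (ZMod p) a = -1 := (quadraticChar_neg_one_iff_not_isSquare).2 hsq
    have h1 := gauss_twist_sum p hp2 (fun x => ee p x)
    have h2 := gauss_twist_sum p hp2 (fun x => ee p (a * x))
    have h3 : ∑ x : ZMod p, ((quadraticChar (ZMod p) x : ℤ) + 1 : ℂ) * ee p (a * x) =
        ∑ x : ZMod p, (-(quadraticChar (ZMod p) x : ℤ) + 1 : ℂ) * ee p x := by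
      rw [← Equiv.sum_comp (Equiv.mulLeft₀ a ha)
        (fun x : ZMod p => (-(quadraticChar (ZMod p) x : ℤ) + 1 : ℂ) * ee p x)]
      refine Finset.sum_congr rfl fun n _ => ?_
      rw [Equiv.mulLeft₀_apply, map_mul, hχ]
      push_cast
      ring
    have h4 : gs p + ∑ n : ZMod p, ee p (a * n ^ 2) = 0 := by
      unfold gs
      rw [h1, h2, h3, ← Finset.sum_add_distrib]
      have h5 : ∀ x : ZMod p, ((quadraticChar (ZMod p) x : ℤ) + 1 : ℂ) * ee p x +
          (-(quadraticChar (ZMod p) x : ℤ) + 1 : ℂ) * ee p x = 2 * ee p x := by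
        intro x
        ring
      rw [Finset.sum_congr rfl fun x _ => h5 x, ← Finset.mul_sum, gauss_twist_zero, mul_zero]
    linear_combination h4

/-- row norm_gs. `|gs|^2 = p` (Mathlib has Gauss sums; or directly as `norm_S`). -/
theorem norm_gs (p : ℕ) [Fact p.Prime] (hp2 : p ≠ 2) : ‖gs p‖ ^ 2 = p := by
  classical
  have hconj : ∀ a : ZMod p, (starRingEnd ℂ) (ee p a) = ee p (-a) := by
    intro a
    unfold ee
    rw [AddChar.map_neg_eq_conj]
  have hadd : ∀ a c : ZMod p, ee p (a + c) = ee p a * ee p c := by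
    intro a c
    unfold ee
    rw [AddChar.map_add_eq_mul]
  have h2 : (2 : ZMod p) ≠ 0 := by
    intro h
    have h3 : ((2 : ℕ) : ZMod p) = 0 := by exact_mod_cast h
    rw [ZMod.natCast_eq_zero_iff] at h3
    have h4 := (Nat.prime_dvd_prime_iff_eq (Fact.out : p.Prime) Nat.prime_two).1 h3
    exact hp2 h4
  have hinner : ∀ d : ZMod p, ∑ n : ZMod p, ee p (n * (2 * d)) = if d = 0 then (p : ℂ) else 0 := by
    intro d
    unfold ee
    rw [AddChar.sum_mulShift (2 * d) (ZMod.isPrimitive_stdAddChar p)]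
    by_cases hd : d = 0
    · rw [if_pos hd, if_pos (by rw [hd, mul_zero]), ZMod.card]
    · rw [if_neg hd, if_neg (mul_ne_zero h2 hd), Nat.cast_zero]
  have hmain : gs p * (starRingEnd ℂ) (gs p) = (p : ℂ) := by
    have e1 : gs p * (starRingEnd ℂ) (gs p) = ∑ n : ZMod p, ∑ d : ZMod p, ee p ((n + d) ^ 2 + -(n ^ 2)) := by
      have e2 : ∀ n : ZMod p, ∑ d : ZMod p, ee p ((n + d) ^ 2 + -(n ^ 2)) =
          gs p * (starRingEnd ℂ) (ee p (n ^ 2)) := by
        intro n
        unfold gs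
        rw [Finset.sum_mul]
        refine (Finset.sum_congr rfl fun d _ => ?_).trans (Equiv.sum_comp (Equiv.addLeft n)
          (fun y => ee p (y ^ 2) * (starRingEnd ℂ) (ee p (n ^ 2))))
        rw [hadd, hconj]
        rfl
      rw [Finset.sum_congr rfl fun n _ => e2 n, ← Finset.mul_sum]
      congr 1
      unfold gs
      rw [map_sum]
    rw [e1, Finset.sum_comm]
    have e3 : ∀ d : ZMod p, ∑ n : ZMod p, ee p ((n + d) ^ 2 + -(n ^ 2)) =
        if d = 0 then (p : ℂ) else 0 := by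
      intro d
      have e4 : ∀ n : ZMod p, ee p ((n + d) ^ 2 + -(n ^ 2)) = ee p (d ^ 2) * ee p (n * (2 * d)) := by
        intro n
        rw [← hadd]
        congr 1
        ring
      rw [Finset.sum_congr rfl fun n _ => e4 n, ← Finset.mul_sum, hinner]
      by_cases hd : d = 0
      · rw [if_pos hd, hd]
        have : ee p ((0 : ZMod p) ^ 2) = 1 := by
          unfold ee
          rw [zero_pow two_ne_zero, AddChar.map_zero_eq_one]
        rw [this, one_mul]
      · rw [if_neg hd, mul_zero]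
    rw [Finset.sum_congr rfl fun d _ => e3 d, Finset.sum_ite_eq' Finset.univ (0 : ZMod p),
      if_pos (Finset.mem_univ _)]
  rw [Complex.mul_conj, Complex.normSq_eq_norm_sq] at hmain
  exact_mod_cast hmain

private theorem case1_sum_inj (D : Dat X) {W : AddSubgroup X} {e : X} (heW : e ∉ W) {n n' : ℕ}
    (hn : n < n') (hn' : n' < D.p) {w w' : X} (hw : w ∈ W) (hw' : w' ∈ W)
    (h : w + n • e = w' + n' • e) : False := by
  have h1 : (n' - n) • e ∈ W := by
    have h2 : n' • e = n • e + (n' - n) • e := by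
      rw [← add_nsmul]
      congr 1
      omega
    have h3 : (n' - n) • e = w - w' := by
      rw [h2] at h
      have h4 : w = w' + (n' - n) • e := by
        have h5 : w + n • e = (w' + (n' - n) • e) + n • e := by
          rw [h]
          abel
        exact add_right_cancel h5
      rw [h4]
      abel
    rw [h3]
    exact W.sub_mem hw hw'
  have hc : Nat.Coprime (n' - n) D.p := by
    refine (Nat.coprime_comm.1 ((Nat.Prime.coprime_iff_not_dvd D.hp).2 fun hd => ?_))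
    have h6 := Nat.le_of_dvd (by omega) hd
    omega
  have h7 : (1 : ℤ) = ((n' - n : ℕ) : ℤ) * Nat.gcdA (n' - n) D.p + (D.p : ℤ) * Nat.gcdB (n' - n) D.p := by
    have h8 := Nat.gcd_eq_gcd_ab (n' - n) D.p
    rw [hc] at h8
    exact_mod_cast h8
  apply heW
  have h9 : e = Nat.gcdA (n' - n) D.p • ((n' - n) • e) := by
    have h10 : e = (1 : ℤ) • e := (one_zsmul e).symm
    rw [h7, add_zsmul, mul_comm, mul_zsmul, mul_comm (D.p : ℤ), mul_zsmul, natCast_zsmul,
      natCast_zsmul, D.exp, zsmul_zero, add_zero] at h10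
    exact h10
  rw [h9]
  exact W.zsmul_mem h1 _

open Classical in
/-- row case1_sum. `perp / W` has order `p`: for `e` in perp, not in `W`, every element of perp is `w + n • e` for exactly one
`w ∈ W`, `n < p`; `F(w + n • e) = F w + n^2 • F e + b w (n • e)`. -/
theorem Dat.case1_sum (D : Dat X) {ψ : AddChar X ℂ} {W : AddSubgroup X} (hW : D.MaxIso ψ W)
    (h : Nat.card (D.perp ψ W) = D.p * Nat.card W) {e : X} (he : e ∈ D.perp ψ W) (heW : e ∉ W) :
    ∑ x ∈ univ.filter (fun x => x ∈ D.perp ψ W), ψ (D.F x) =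
      (Nat.card W : ℂ) * ∑ n ∈ Finset.range D.p, ψ (D.F e) ^ (n ^ 2) := by
  have hWp : W ≤ D.perp ψ W := fun x hx w hw => hW.1 w hw x hx
  have hcW : Nat.card W = (univ.filter (fun x => x ∈ W)).card := by
    rw [Nat.card_eq_fintype_card, Fintype.card_subtype]
  have hcP : Nat.card (D.perp ψ W) = (univ.filter (fun x => x ∈ D.perp ψ W)).card := by
    rw [Nat.card_eq_fintype_card, Fintype.card_subtype]
  have hinj : Set.InjOn (fun x : X × ℕ => x.1 + x.2 • e)
      ((univ.filter (fun x => x ∈ W)) ×ˢ Finset.range D.p : Finset (X × ℕ)) := by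
    rintro ⟨w, n⟩ h1 ⟨w', n'⟩ h2 h3
    have h1' := mem_product.1 (Finset.mem_coe.1 h1)
    have h2' := mem_product.1 (Finset.mem_coe.1 h2)
    simp only [mem_filter, mem_univ, true_and, mem_range] at h1' h2'
    beta_reduce at h3
    dsimp only at h3
    rcases lt_trichotomy n n' with hlt | heq | hgt
    · exact (case1_sum_inj D heW hlt h2'.2 h1'.1 h2'.1 h3).elim
    · subst heq
      rw [add_right_cancel h3]
    · exact (case1_sum_inj D heW hgt h1'.2 h2'.1 h1'.1 h3.symm).elim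
  have himg : ((univ.filter (fun x => x ∈ W)) ×ˢ Finset.range D.p).image
      (fun x : X × ℕ => x.1 + x.2 • e) = univ.filter (fun x => x ∈ D.perp ψ W) := by
    apply Finset.eq_of_subset_of_card_le
    · intro y hy
      obtain ⟨⟨w, n⟩, h1, rfl⟩ := mem_image.1 hy
      have h1' := mem_product.1 h1
      simp only [mem_filter, mem_univ, true_and] at h1' ⊢
      exact (D.perp ψ W).add_mem (hWp h1'.1) ((D.perp ψ W).nsmul_mem he n)
    · rw [Finset.card_image_of_injOn hinj, Finset.card_product, Finset.card_range, ← hcP, h, ← hcW,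
        mul_comm]
  rw [← himg, Finset.sum_image hinj, Finset.sum_product]
  have hval : ∀ w ∈ univ.filter (fun x => x ∈ W), ∀ n ∈ Finset.range D.p,
      ψ (D.F (w + n • e)) = ψ (D.F e) ^ (n ^ 2) := by
    intro w hw n _
    have hw' : w ∈ W := (mem_filter.1 hw).2
    rw [D.F_add, D.F_nsmul, AddChar.map_add_eq_mul, AddChar.map_add_eq_mul, D.iso_F (hW.1 w hw' w hw'),
      AddChar.map_nsmul_eq_pow, one_mul, (D.perp ψ W).nsmul_mem he n w hw', mul_one]
  rw [Finset.sum_congr rfl fun w hw => Finset.sum_congr rfl fun n hn => hval w hw n hn,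
    Finset.sum_const, nsmul_eq_mul, hcW]

private theorem case1_root (p : ℕ) [Fact p.Prime] {z : ℂ} (hz : z ^ p = 1) : ∃ a : ZMod p, z = ee p a := by
  have hp0 : p ≠ 0 := (Fact.out : p.Prime).ne_zero
  obtain ⟨i, _, hi⟩ := (Complex.isPrimitiveRoot_exp p hp0).eq_pow_of_pow_eq_one hz
  refine ⟨((i : ℤ) : ZMod p), ?_⟩
  rw [ee, ZMod.stdAddChar_coe, ← hi, ← Complex.exp_nat_mul]
  congr 1
  push_cast
  ring

private theorem case1_pow (p : ℕ) [Fact p.Prime] (a : ZMod p) (n : ℕ) : ee p a ^ n = ee p (a * n) := by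
  rw [ee, ← AddChar.map_nsmul_eq_pow, nsmul_eq_mul, mul_comm]
  rfl

private theorem case1_range (p : ℕ) [Fact p.Prime] (a : ZMod p) :
    ∑ n ∈ Finset.range p, ee p a ^ (n ^ 2) = ∑ n : ZMod p, ee p (a * n ^ 2) := by
  refine Finset.sum_nbij' (fun n => (n : ZMod p)) ZMod.val (fun _ _ => Finset.mem_univ _)
    (fun n _ => Finset.mem_range.2 (ZMod.val_lt n)) (fun n hn => ZMod.val_cast_of_lt (Finset.mem_range.1 hn))
    (fun n _ => ZMod.natCast_zmod_val n) fun n _ => ?_
  rw [case1_pow]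
  push_cast
  rfl

/-- row case1. `S_perp`, `case1_sum`, `ψ(F e) = ee a` with `a ≠ 0` (a p-th root of unity, not 1 by `mem_of_max`), `gauss_twist`;
in the first case replace `e` by `c • e`. -/
theorem Dat.case1 (D : Dat X) [Fact D.p.Prime] {ψ : AddChar X ℂ} {W : AddSubgroup X} (hW : D.MaxIso ψ W)
    (h : Nat.card (D.perp ψ W) = D.p * Nat.card W) :
    (D.S ψ = (Nat.card W : ℂ) * gs D.p ∧ ∃ e ∈ D.perp ψ W, ψ (D.F e) = ee D.p 1) ∨
      D.S ψ = -((Nat.card W : ℂ) * gs D.p) := by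
  classical
  obtain ⟨e, he, heW⟩ : ∃ e, e ∈ D.perp ψ W ∧ e ∉ W := by
    by_contra hcon
    push Not at hcon
    have hle : D.perp ψ W ≤ W := fun x hx => hcon x hx
    have h1 : Nat.card (D.perp ψ W) ≤ Nat.card W :=
      Nat.card_le_card_of_injective (AddSubgroup.inclusion hle) (AddSubgroup.inclusion_injective hle)
    have h2 : 0 < Nat.card W := Nat.card_pos
    have h3 : 2 ≤ D.p := D.hp.two_le
    rw [h] at h1
    have h4 : 2 * Nat.card W ≤ D.p * Nat.card W := Nat.mul_le_mul_right _ h3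
    omega
  have hzp : ψ (D.F e) ^ D.p = 1 := by
    rw [← AddChar.map_nsmul_eq_pow, D.exp, AddChar.map_zero_eq_one]
  obtain ⟨a, ha⟩ := case1_root D.p hzp
  have ha0 : a ≠ 0 := by
    rintro rfl
    refine heW (D.mem_of_max hW he ?_)
    rw [ha, ee, AddChar.map_zero_eq_one]
  have hS : D.S ψ = (Nat.card W : ℂ) * ∑ n : ZMod D.p, ee D.p (a * n ^ 2) := by
    rw [D.S_perp hW.1, D.case1_sum hW h he heW, ha, case1_range]
  rcases gauss_twist D.p D.hodd a ha0 with ⟨c, hc, hg⟩ | hg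
  · left
    refine ⟨by rw [hS, hg], c.val • e, AddSubgroup.nsmul_mem _ he _, ?_⟩
    rw [D.F_nsmul, AddChar.map_nsmul_eq_pow, ha, case1_pow]
    push_cast
    rw [ZMod.natCast_zmod_val, hc]
  · right
    rw [hS, hg]
    ring

private theorem good1_ee (p : ℕ) [Fact p.Prime] (n : ℕ) :
    ee p 1 ^ n = Complex.exp (2 * Real.pi * Complex.I * (n : ℂ) / p) := by
  have h1 : ee p 1 ^ n = ZMod.stdAddChar (n : ZMod p) := by
    unfold ee
    rw [← AddChar.map_nsmul_eq_pow, nsmul_eq_mul, mul_one]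
  rw [h1]
  have h2 := ZMod.stdAddChar_coe (N := p) (n : ℤ)
  rw [Int.cast_natCast] at h2
  rw [h2]
  push_cast
  rfl

private theorem good1_re (p : ℕ) [Fact p.Prime] (n : ℕ) (hn : 4 * n ≤ p) : 0 ≤ (ee p 1 ^ n).re := by
  rw [good1_ee]
  have hp : (0 : ℝ) < p := by exact_mod_cast (Fact.out : p.Prime).pos
  have h1 : 2 * (Real.pi : ℂ) * Complex.I * (n : ℂ) / (p : ℂ) =
      ((2 * Real.pi * n / p : ℝ) : ℂ) * Complex.I := by
    push_cast
    ring
  rw [h1, Complex.exp_ofReal_mul_I_re]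
  apply Real.cos_nonneg_of_neg_pi_div_two_le_of_le
  · have : 0 ≤ 2 * Real.pi * n / p := by positivity
    linarith [Real.pi_pos]
  · rw [div_le_iff₀ hp]
    have h2 : (4 : ℝ) * n ≤ p := by exact_mod_cast hn
    nlinarith [Real.pi_pos]

private theorem good1_ne (p : ℕ) [Fact p.Prime] : ee p 1 ≠ 1 := by
  intro h
  have h1 : ZMod.stdAddChar (1 : ZMod p) = ZMod.stdAddChar (0 : ZMod p) := by
    rw [AddChar.map_zero_eq_one]
    exact h
  have h2 := ZMod.injective_stdAddChar h1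
  exact one_ne_zero h2

/-- row good1. `A = {w + n • e : w ∈ W, 0 ≤ n ≤ r}`, `r = floor(sqrt p / 2)` (so `4 r^2 ≤ p < 4 (r+1)^2`, `r < p`), has
`|W| (r + 1)` elements, `4 |A|^2 ≥ p |W|^2 = q`; `ψ(F(w + n • e - ...)) = exp(2 pi i k^2 / p)` with `|k| ≤ r`. -/
theorem Dat.good1 (D : Dat X) [Fact D.p.Prime] {ψ : AddChar X ℂ} {W : AddSubgroup X} (hW : D.MaxIso ψ W)
    (h : Fintype.card X = D.p * Nat.card W ^ 2) {e : X} (he : e ∈ D.perp ψ W) (h1 : ψ (D.F e) = ee D.p 1) :
    D.Good ψ := by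
  classical
  obtain ⟨r, hr1, hr2⟩ : ∃ r : ℕ, 4 * r ^ 2 ≤ D.p ∧ D.p < 4 * (r + 1) ^ 2 := by
    refine ⟨Nat.sqrt (D.p / 4), ?_, ?_⟩
    · have := Nat.sqrt_le' (D.p / 4)
      omega
    · have := Nat.lt_succ_sqrt' (D.p / 4)
      rw [Nat.succ_eq_add_one] at this
      omega
  have hpp : D.p.Prime := Fact.out
  have hrp : r < D.p := by
    have h0 := hpp.pos
    rcases Nat.eq_zero_or_pos r with h2 | h2
    · omega
    · nlinarith
  have hF : ∀ w ∈ W, ψ (D.F w) = 1 := fun w hw => D.iso_F (hW.1 w hw w hw)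
  have heW : e ∉ W := by
    intro hh
    have h2 := hF e hh
    rw [h1] at h2
    exact good1_ne D.p h2
  have hF0 : D.F 0 = 0 := by
    have := D.F_nsmul 0 (0 : X)
    simpa using this
  have hneg : ∀ x, D.F (-x) = D.F x := by
    intro x
    have h2 := D.F_add x (-x)
    rw [add_neg_cancel, hF0, map_neg, ← D.two_F, two_nsmul] at h2
    have h3 : D.F (-x) - D.F x = 0 := by
      rw [h2]; abel
    exact sub_eq_zero.1 h3
  -- multiples of e outside W
  have hkey : ∀ k : ℕ, 0 < k → k < D.p → k • e ∉ W := by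
    intro k hk0 hk hkW
    apply heW
    have hcop : Nat.Coprime k D.p := (Nat.coprime_of_lt_prime hk0.ne' hk hpp).symm
    obtain ⟨n, hn1, hn2⟩ := Nat.chineseRemainder hcop 0 1
    have hdiv : k ∣ n := (Nat.modEq_zero_iff_dvd).1 hn1
    obtain ⟨c, hc⟩ := hdiv
    have h3 : n • e = e := by
      have h4 : addOrderOf e ∣ D.p := addOrderOf_dvd_of_nsmul_eq_zero (D.exp e)
      have h5 : n • e = 1 • e := nsmul_eq_nsmul_iff_modEq.2 (hn2.of_dvd h4)
      simpa using h5
    rw [← h3, hc, mul_comm, mul_nsmul']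
    exact W.nsmul_mem hkW c
  have hval : ∀ w ∈ W, ∀ k : ℕ, k ≤ r → 0 ≤ (ψ (D.F (w + k • e))).re := by
    intro w hw k hk
    have h2 : ψ (D.F (w + k • e)) = ee D.p 1 ^ (k ^ 2) := by
      rw [D.F_add, AddChar.map_add_eq_mul, AddChar.map_add_eq_mul, hF w hw, map_nsmul,
        AddChar.map_nsmul_eq_pow, he w hw, one_pow, one_mul, mul_one, D.F_nsmul,
        AddChar.map_nsmul_eq_pow, h1]
    rw [h2]
    apply good1_re
    have : k ^ 2 ≤ r ^ 2 := Nat.pow_le_pow_left hk 2
    omega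
  let g : X × ℕ → X := fun z => z.1 + z.2 • e
  refine ⟨((univ.filter (fun x => x ∈ W)) ×ˢ range (r + 1)).image g, ?_, ?_⟩
  · have hinj : Set.InjOn g (((univ.filter (fun x => x ∈ W)) ×ˢ range (r + 1) : Finset (X × ℕ)) : Set (X × ℕ)) := by
      have hlt : ∀ w ∈ W, ∀ w' ∈ W, ∀ n n' : ℕ, n' < n → n ≤ r → w + n • e = w' + n' • e → False := by
        intro w hw w' hw' n n' hnn hn hh
        apply hkey (n - n') (by omega) (by omega)
        have h3 : (n - n') • e = w' - w := by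
          have h4 : n • e = (n - n') • e + n' • e := by
            rw [← add_nsmul]; congr 1; omega
          rw [h4, ← add_assoc] at hh
          have h5 := add_right_cancel hh
          rw [← h5]; abel
        rw [h3]
        exact W.sub_mem hw' hw
      rintro ⟨w, n⟩ hz ⟨w', n'⟩ hz' hh
      rw [Finset.mem_coe, Finset.mem_product, Finset.mem_filter, Finset.mem_range] at hz hz'
      have hh' : w + n • e = w' + n' • e := hh
      rcases lt_trichotomy n n' with h2 | h2 | h2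
      · exact (hlt w' hz'.1.2 w hz.1.2 n' n h2 (by have := hz'.2; simp only at this; omega) hh'.symm).elim
      · subst h2
        have h3 := add_right_cancel hh'
        rw [h3]
      · exact (hlt w hz.1.2 w' hz'.1.2 n n' h2 (by have := hz.2; simp only at this; omega) hh').elim
    rw [Finset.card_image_of_injOn hinj, Finset.card_product, Finset.card_range]
    have hcard : (univ.filter (fun x => x ∈ W)).card = Nat.card W := by
      rw [Nat.card_eq_fintype_card, Fintype.card_subtype]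
    rw [hcard, h]
    have h5 : (D.p : ℝ) ≤ 4 * ((r : ℝ) + 1) ^ 2 := by exact_mod_cast hr2.le
    push_cast
    nlinarith [sq_nonneg (Nat.card W : ℝ)]
  · intro a ha a' ha'
    rw [Finset.mem_image] at ha ha'
    obtain ⟨⟨w, n⟩, hz, rfl⟩ := ha
    obtain ⟨⟨w', n'⟩, hz', rfl⟩ := ha'
    rw [Finset.mem_product, Finset.mem_filter, Finset.mem_range] at hz hz'
    simp only at hz hz'
    show 0 ≤ (ψ (D.F ((w + n • e) - (w' + n' • e)))).re
    rcases le_total n' n with h2 | h2
    · have h3 : (w + n • e) - (w' + n' • e) = (w - w') + (n - n') • e := by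
        have h4 : n • e = (n - n') • e + n' • e := by
          rw [← add_nsmul]; congr 1; omega
        rw [h4]; abel
      rw [h3]
      exact hval _ (W.sub_mem hz.1.2 hz'.1.2) _ (by omega)
    · have h3 : (w + n • e) - (w' + n' • e) = -((w' - w) + (n' - n) • e) := by
        have h4 : n' • e = (n' - n) • e + n • e := by
          rw [← add_nsmul]; congr 1; omega
        rw [h4]; abel
      rw [h3, hneg]
      exact hval _ (W.sub_mem hz'.1.2 hz.1.2) _ (by omega)

/-- The cardinalities of a maximal isotropic subgroup and of its orthogonal. -/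
theorem Dat.types_cards (D : Dat X) {ψ : AddChar X ℂ} (hψ : ψ ≠ 1) {W : AddSubgroup X} (hW : D.MaxIso ψ W) :
    ∃ a c : ℕ, Nat.card W = D.p ^ a ∧ Nat.card (D.perp ψ W) = D.p ^ c ∧ a + c = D.m ∧ (c = a ∨ c = a + 1 ∨ c = a + 2) := by
  have h1 := D.card_perp hψ W
  rw [D.card_eq] at h1
  obtain ⟨a, ha, ha'⟩ := (Nat.dvd_prime_pow D.hp).1 (Dvd.intro _ h1)
  obtain ⟨c, hc, hc'⟩ := (Nat.dvd_prime_pow D.hp).1 (Dvd.intro_left _ h1)
  have hp1 : 1 < D.p := D.hp.one_lt
  have h2 : a + c = D.m := by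
    rw [ha', hc', ← pow_add] at h1
    exact Nat.pow_right_injective D.hp.two_le h1
  have h3 : Nat.card W ≤ Nat.card (D.perp ψ W) := by
    apply Nat.card_le_card_of_injective (fun w : W => (⟨w.1, fun w' hw' => hW.1 w' hw' w.1 w.2⟩ : D.perp ψ W))
    intro u v huv
    have := congrArg (fun t : D.perp ψ W => t.1) huv
    exact Subtype.ext this
  have h4 := D.perp_le hψ hW
  rw [ha', hc'] at h3
  rw [ha', hc', ← pow_add] at h4
  have h5 : a ≤ c := (Nat.pow_le_pow_iff_right hp1).1 h3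
  have h6 : c ≤ 2 + a := (Nat.pow_le_pow_iff_right hp1).1 h4
  exact ⟨a, c, ha', hc', h2, by omega⟩

/-- The normalised sums take the two values `±η`, and the characters of value `η` are good. -/
theorem Dat.types (D : Dat X) : ∃ η : ℂ, ‖η‖ = 1 ∧ ∀ ψ : AddChar X ℂ, ψ ≠ 1 →
    (D.S ψ = η * (Real.sqrt (Fintype.card X) : ℂ) ∧ D.Good ψ) ∨ D.S ψ = -(η * (Real.sqrt (Fintype.card X) : ℂ)) := by
  have : Fact D.p.Prime := ⟨D.hp⟩
  have hp0 : (0 : ℝ) < D.p := by exact_mod_cast D.hp.pos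
  by_cases hm : Even D.m
  · refine ⟨1, by simp, fun ψ hψ => ?_⟩
    obtain ⟨W, hW⟩ := D.exists_max ψ
    obtain ⟨a, c, ha, hc, hac, h | h | h⟩ := D.types_cards hψ hW
    · left
      rw [one_mul]
      exact D.case0 hψ hW (by rw [ha, hc, h])
    · exfalso
      rw [← hac, h] at hm
      have : ¬ Even (a + (a + 1)) := by
        rw [Nat.not_even_iff_odd]
        exact ⟨a, by ring⟩
      exact this hm
    · right
      rw [one_mul]
      exact D.case2 hψ hW (by rw [ha, hc, h, ← pow_add, add_comm])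
  · refine ⟨gs D.p / (Real.sqrt D.p : ℂ), ?_, fun ψ hψ => ?_⟩
    · rw [norm_div, Complex.norm_real, Real.norm_of_nonneg (Real.sqrt_nonneg _)]
      have h1 := norm_gs D.p D.hodd
      have h2 : ‖gs D.p‖ = Real.sqrt D.p := by
        rw [← h1, Real.sqrt_sq (norm_nonneg _)]
      rw [h2]
      exact div_self (Real.sqrt_pos.2 hp0).ne'
    · obtain ⟨W, hW⟩ := D.exists_max ψ
      have key : Nat.card (D.perp ψ W) = D.p * Nat.card W := by
        obtain ⟨a, c, ha, hc, hac, h | h | h⟩ := D.types_cards hψ hW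
        · exfalso
          apply hm
          rw [← hac, h]
          exact ⟨a, rfl⟩
        · rw [ha, hc, h, pow_succ, mul_comm]
        · exfalso
          apply hm
          rw [← hac, h]
          exact ⟨a + 1, by ring⟩
      have hq : Fintype.card X = D.p * Nat.card W ^ 2 := by
        rw [← D.card_perp hψ W, key]
        ring
      have hs : (Real.sqrt (Fintype.card X) : ℂ) = (Nat.card W : ℂ) * (Real.sqrt D.p : ℂ) := by
        rw [hq]
        push_cast
        rw [Real.sqrt_mul hp0.le, Real.sqrt_sq (Nat.cast_nonneg _)]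
        push_cast
        ring
      have hsp : (Real.sqrt D.p : ℂ) ≠ 0 := by
        exact_mod_cast (Real.sqrt_pos.2 hp0).ne'
      have e1 : gs D.p / (Real.sqrt D.p : ℂ) * (Real.sqrt (Fintype.card X) : ℂ) = (Nat.card W : ℂ) * gs D.p := by
        rw [hs]
        field_simp
      rw [e1]
      rcases D.case1 hW key with ⟨h1, e, he, h2⟩ | h1
      · left
        exact ⟨h1, D.good1 hW hq he h2⟩
      · right
        exact h1

end Pool.Agent.C4f
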